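import Pool.Agent.H900.LF.Cr

/-! # Algebraic points of the quadric over the residue field -/

set_option autoImplicit false
set_option linter.unusedSectionVars false

namespace Pool.Agent.H900.LF

open MvPolynomial FF Module Pool.Agent.Helper93K9.PAR

noncomputable section

variable {p q m : ℕ}

/-- an element which is dependent on an independent family is algebraic over its field -/
theorem alg_of_dep {k W : Type} [Field k] [Field W] [Algebra k W] {r : ℕ} {t : Fin r → W}
    (ht : AlgebraicIndependent k t) {a : W}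
    (h : ¬ AlgebraicIndependent k (Fin.cons a t : Fin (r + 1) → W)) :
    IsAlgebraic (IntermediateField.adjoin k (Set.range t)) a := by
  by_contra hcon
  apply h
  have h1 : Transcendental (Algebra.adjoin k (Set.range t)) a := by
    intro h2
    exact hcon ((Pool.Agent.X328.FD.alg_ring_iff' _ _).1 h2)
  have h2 := (AlgebraicIndependent.option_iff_transcendental ht a).2 h1
  have h3 : (Fin.cons a t : Fin (r + 1) → W) =
      (fun o : Option (Fin r) => o.elim a t) ∘ finSuccEquiv r := by
    funext i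
    refine Fin.cases ?_ (fun i => ?_) i
    · rw [Function.comp_apply, finSuccEquiv_zero]
      rfl
    · rw [Function.comp_apply, finSuccEquiv_succ]
      rfl
  rw [h3, algebraicIndependent_equiv]
  exact h2

theorem dep_of_alg {k W : Type} [Field k] [Field W] [Algebra k W] {r : ℕ} {t : Fin r → W}
    {a : W} (h : IsAlgebraic (IntermediateField.adjoin k (Set.range t)) a) :
    ¬ AlgebraicIndependent k (Fin.cons a t : Fin (r + 1) → W) := by
  intro hcon
  have h3 : (Fin.cons a t : Fin (r + 1) → W) =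
      (fun o : Option (Fin r) => o.elim a t) ∘ finSuccEquiv r := by
    funext i
    refine Fin.cases ?_ (fun i => ?_) i
    · rw [Function.comp_apply, finSuccEquiv_zero]
      rfl
    · rw [Function.comp_apply, finSuccEquiv_succ]
      rfl
  rw [h3, algebraicIndependent_equiv, AlgebraicIndependent.option_iff] at hcon
  exact hcon.2 ((Pool.Agent.X328.FD.alg_ring_iff' _ _).2 h)

section

variable {Ω κ : Type} [Field Ω] [CharZero Ω] [Field κ] [Algebra Ω κ]
  {v : Fin (p + 1) → Fin (q + 1)} {x : Fin (NN p q m + 2) → κ}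

/-- the affine coordinates of the fibre -/
def Yv (x : Fin (NN p q m + 2) → κ) (i : Fin (p + 3)) : κ := x (ix p q m i) / x (iz p q m 0)

/-- the parameters of the fibre -/
def tau (x : Fin (NN p q m + 2) → κ) : Fin (p + 2) ⊕ Fin m → κ :=
  Sum.elim (fun i => Yv x i.succ) fun l => x (ir p q m l) / x (iz p q m 0)

theorem eq_Y0 (hg : Gen (Fsp m v : MvPolynomial (Fin (NN p q m + 2)) Ω) x) :
    Yv x 0 ^ 2 = -(∑ a : Fin (p + 1), tt x (v a).succ.succ * Yv x a.succ.succ ^ 2 +
      (tt x 1 * tt x (LL q) - tt x (LL q) ^ 3)) + -tt x 1 * Yv x 1 ^ 2 := by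
  have hz := z0_ne hg (iz p q m 0)
  have h1 := hg.1
  rw [aeval_Fsp, Fin.sum_univ_succ, Fin.sum_univ_succ] at h1
  have e0 : rho v 0 = 0 := rfl
  have e1 : rho v 1 = 1 := rfl
  have e2 : ∀ a : Fin (p + 1), rho v a.succ.succ = (v a).succ.succ := fun a => rfl
  have e3 : (Fin.succ 0 : Fin (p + 3)) = 1 := rfl
  simp only [e3] at h1
  simp only [e0, e1, e2] at h1
  unfold Yv tt
  have h2 : ∑ a : Fin (p + 1), x (iz p q m (v a).succ.succ) / x (iz p q m 0) *
      (x (ix p q m a.succ.succ) / x (iz p q m 0)) ^ 2 =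
      (∑ a : Fin (p + 1), x (iz p q m (v a).succ.succ) * x (ix p q m a.succ.succ) ^ 2) /
        x (iz p q m 0) ^ 3 := by
    rw [Finset.sum_div]
    refine Finset.sum_congr rfl fun a _ => ?_
    field_simp
  rw [h2]
  field_simp
  linear_combination h1

theorem rest_ne (hg : Gen (Fsp m v : MvPolynomial (Fin (NN p q m + 2)) Ω) x)
    (hodd : Odd (finrank (rf Ω x) κ)) :
    -(∑ a : Fin (p + 1), tt x (v a).succ.succ * Yv x a.succ.succ ^ 2 +
      (tt x 1 * tt x (LL q) - tt x (LL q) ^ 3)) ≠ 0 := by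
  classical
  rw [Ne, neg_eq_zero]
  intro h
  let P : MvPolynomial (Fin (q + 2) ⊕ (Fin (p + 2) ⊕ Fin m)) Ω :=
    ∑ a : Fin (p + 1), X (Sum.inl (v a).succ) * X (Sum.inr (Sum.inl a.succ)) ^ 2 +
      (X (Sum.inl 0) * X (Sum.inl (Fin.last (q + 1))) - X (Sum.inl (Fin.last (q + 1))) ^ 3)
  have h1 : aeval (bc x) P = 0 := by
    simp only [P, map_add, map_sub, map_sum, map_mul, map_pow, aeval_X]
    exact h
  have h2 := (algebraicIndependent_iff.1 (bc_indep hg hodd)) P h1
  have h3 := congrArg (eval (Sum.elim (fun j : Fin (q + 2) => if j = Fin.last (q + 1) then (1 : Ω)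
    else 0) fun _ => 0)) h2
  simp only [P, map_add, map_sub, map_sum, map_mul, map_pow, eval_X, Sum.elim_inl, Sum.elim_inr,
    map_zero, if_pos] at h3
  have h4 : (0 : Fin (q + 2)) ≠ Fin.last (q + 1) := by
    intro h
    exact absurd (congrArg Fin.val h) (by simp)
  rw [if_neg h4] at h3
  norm_num at h3

theorem tt_mem {A : IntermediateField Ω κ}
    (hg : Gen (Fsp m v : MvPolynomial (Fin (NN p q m + 2)) Ω) x)
    (hA : ∀ j : Fin (q + 2), tt x j.succ ∈ A) (j : Fin (q + 3)) : tt x j ∈ A := by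
  refine Fin.cases ?_ (fun j => hA j) j
  have h1 : tt x 0 = 1 := div_self (z0_ne hg (iz p q m 0))
  rw [h1]
  exact one_mem _

/-- the quadratic extension -/
theorem two_deg (hg : Gen (Fsp m v : MvPolynomial (Fin (NN p q m + 2)) Ω) x)
    (hodd : Odd (finrank (rf Ω x) κ)) (A : IntermediateField Ω κ)
    (hA : ∀ j : Fin (q + 2), tt x j.succ ∈ A) (hτ : AlgebraicIndependent A (tau x)) :
    (A ⊔ IntermediateField.adjoin Ω (Set.range (tau x))).relfinrank
      (A ⊔ IntermediateField.adjoin Ω (Set.range (tau x)) ⊔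
        IntermediateField.adjoin Ω {Yv x 0}) = 2 := by
  classical
  set i0 : Fin (p + 2) ⊕ Fin m := Sum.inl 0 with hi0
  set A1 : IntermediateField Ω κ := A ⊔ IntermediateField.adjoin Ω (tau x '' {i0}ᶜ) with hA1
  have htr : Transcendental A1 (tau x i0) :=
    Pool.Agent.X328.FD.trans_field hτ (s := {i0}ᶜ) (i := i0) (by simp)
  have hAA : A ≤ A1 := le_sup_left
  have htt : ∀ j, tt x j ∈ A1 := fun j => hAA (tt_mem hg hA j)
  have hY : ∀ a : Fin (p + 1), Yv x a.succ.succ ∈ A1 := by
    intro a
    refine (le_sup_right : IntermediateField.adjoin Ω (tau x '' {i0}ᶜ) ≤ A1)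
      (IntermediateField.subset_adjoin _ _ ⟨Sum.inl a.succ, ?_, rfl⟩)
    rw [Set.mem_compl_iff, Set.mem_singleton_iff, hi0]
    intro h
    exact Fin.succ_ne_zero a (Sum.inl_injective h)
  have h1 := Pool.Agent.X328.FD.rel_kummer A1 (s := tau x i0) (y := Yv x 0) htr
    (c := -(∑ a : Fin (p + 1), tt x (v a).succ.succ * Yv x a.succ.succ ^ 2 +
      (tt x 1 * tt x (LL q) - tt x (LL q) ^ 3))) (d := -tt x 1)
    (neg_mem (add_mem (sum_mem fun a _ => mul_mem (htt _) (pow_mem (hY a) 2))
      (sub_mem (mul_mem (htt _) (htt _)) (pow_mem (htt _) 3)))) (rest_ne hg hodd)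
    (neg_mem (htt 1)) (by
      rw [Ne, neg_eq_zero]
      exact div_ne_zero (z0_ne hg _) (z0_ne hg _)) (e := 2) (by norm_num) (eq_Y0 hg)
  have h2 : A ⊔ IntermediateField.adjoin Ω (Set.range (tau x)) =
      A1 ⊔ IntermediateField.adjoin Ω {tau x i0} := by
    rw [hA1, sup_assoc, ← IntermediateField.adjoin_union]
    congr 2
    have h3 : ({tau x i0} : Set κ) = tau x '' {i0} := (Set.image_singleton).symm
    rw [h3, ← Set.image_union, Set.compl_union_self, Set.image_univ]
  rw [h2]
  exact h1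

theorem tau_indep (hg : Gen (Fsp m v : MvPolynomial (Fin (NN p q m + 2)) Ω) x)
    (hodd : Odd (finrank (rf Ω x) κ)) :
    AlgebraicIndependent (IntermediateField.adjoin Ω
      (Set.range fun j : Fin (q + 2) => tt x j.succ)) (tau x) := by
  apply Pool.Agent.X328.FD.indep_over
  have h1 := bc_indep hg hodd
  have h2 : (Sum.elim (tau x) fun j : Fin (q + 2) => tt x j.succ) =
      bc x ∘ (Equiv.sumComm _ _) := by
    funext s
    rcases s with s | j
    · rfl
    · rfl
  rw [h2, algebraicIndependent_equiv]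
  exact h1

theorem rf_eq (hg : Gen (Fsp m v : MvPolynomial (Fin (NN p q m + 2)) Ω) x) :
    IntermediateField.adjoin Ω (Set.range fun j : Fin (q + 2) => tt x j.succ) ⊔
      IntermediateField.adjoin Ω (Set.range (tau x)) ⊔ IntermediateField.adjoin Ω {Yv x 0} =
      rf Ω x := by
  have hz := z0_ne hg (iz p q m 0)
  rw [← IntermediateField.adjoin_union, ← IntermediateField.adjoin_union]
  set S : Set κ := (Set.range (fun j : Fin (q + 2) => tt x j.succ) ∪ Set.range (tau x)) ∪ {Yv x 0}
    with hS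
  have hsub : ∀ z ∈ S, z ∈ IntermediateField.adjoin Ω S :=
    fun z hz => IntermediateField.subset_adjoin _ _ hz
  apply le_antisymm
  · rw [IntermediateField.adjoin_le_iff]
    rintro _ ((⟨j, rfl⟩ | ⟨i | l, rfl⟩) | rfl)
    · exact IntermediateField.subset_adjoin _ _ ⟨_, _, rfl⟩
    · exact IntermediateField.subset_adjoin _ _ ⟨_, _, rfl⟩
    · exact IntermediateField.subset_adjoin _ _ ⟨_, _, rfl⟩
    · exact IntermediateField.subset_adjoin _ _ ⟨_, _, rfl⟩
  · have h3 : ∀ a, x a / x (iz p q m 0) ∈ IntermediateField.adjoin Ω S := by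
      intro a
      rcases cases_idx a with ⟨i, rfl⟩ | ⟨l, rfl⟩ | ⟨j, rfl⟩
      · refine Fin.cases ?_ (fun i => ?_) i
        · exact hsub _ (Or.inr rfl)
        · exact hsub _ (Or.inl (Or.inr ⟨Sum.inl i, rfl⟩))
      · exact hsub _ (Or.inl (Or.inr ⟨Sum.inr l, rfl⟩))
      · refine Fin.cases ?_ (fun j => ?_) j
        · rw [div_self hz]
          exact one_mem _
        · exact hsub _ (Or.inl (Or.inl ⟨j, rfl⟩))
    rw [rf, IntermediateField.adjoin_le_iff]
    rintro _ ⟨i, j, rfl⟩
    rw [← div_div_div_cancel_right₀ hz]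
    exact div_mem (h3 i) (h3 j)

/-- **The quadric has no points which are algebraic over the field of the base.** -/
theorem no_alg (hv : Function.Injective v) (hl : v (Fin.last p) = Fin.last q)
    (hg : Gen (Fsp m v : MvPolynomial (Fin (NN p q m + 2)) Ω) x)
    (hodd : Odd (finrank (rf Ω x) κ)) (y : Fin (p + 3 + 1) → κ)
    (hy : ∀ i, ¬ AlgebraicIndependent Ω
      (Fin.cons (y i) (fun j : Fin (q + 2) => tt x j.succ) : Fin (q + 2 + 1) → κ))
    (hy0 : y ≠ 0) : ∑ i, cq v (tt x) i * y i ^ 2 ≠ 0 := by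
  classical
  intro hs
  have hti := tt_indep hg hodd
  set t' : Fin (q + 2) → κ := fun j => tt x j.succ with ht'
  set A0 := IntermediateField.adjoin Ω (Set.range t') with hA0
  have hA0t : ∀ j : Fin (q + 2), tt x j.succ ∈ A0 := fun j =>
    IntermediateField.subset_adjoin _ _ ⟨j, rfl⟩
  have hya : ∀ i, IsAlgebraic A0 (y i) := fun i => alg_of_dep hti (hy i)
  set L := IntermediateField.adjoin A0 (Set.range y) with hL
  have hfd : FiniteDimensional A0 L :=
    IntermediateField.finiteDimensional_adjoin (by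
      rintro _ ⟨i, rfl⟩
      exact (hya i).isIntegral)
  set L' : IntermediateField Ω κ := A0 ⊔ IntermediateField.adjoin Ω (Set.range y) with hL'
  have hLL : L.restrictScalars Ω = L' := Pool.Agent.X328.FD.res_adjoin A0 (Set.range y)
  have hle : A0 ≤ L' := le_sup_left
  have hdeg : finrank A0 L = A0.relfinrank L' := by
    rw [← hLL]
    exact Pool.Agent.X328.FD.fin_rel A0 L
  have hd0 : A0.relfinrank L' ≠ 0 := by
    rw [← hdeg]
    exact finrank_pos.ne'
  have halgL : ∀ z ∈ L', IsAlgebraic A0 z := Pool.Agent.X328.FD.alg_of_relfinrank hle hd0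
  have hτ0 : AlgebraicIndependent A0 (tau x) := tau_indep hg hodd
  have hτ1 : AlgebraicIndependent L' (tau x) := Pool.Agent.X328.FD.indep_ext hle halgL hτ0
  have r1 := two_deg hg hodd A0 hA0t hτ0
  have r2 := two_deg hg hodd L' (fun j => hle (hA0t j)) hτ1
  have r3 := Pool.Agent.X328.FD.rel_ext hle hd0 (tau x) hτ1
  rw [rf_eq hg] at r1
  set B0 := A0 ⊔ IntermediateField.adjoin Ω (Set.range (tau x)) with hB0
  set B1 := L' ⊔ IntermediateField.adjoin Ω (Set.range (tau x)) with hB1
  have hB01 : B0 ≤ B1 := sup_le_sup_right hle _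
  have hB0r : B0 ≤ rf Ω x := by
    rw [← rf_eq hg]
    exact le_sup_left
  have e1 := IntermediateField.relfinrank_mul_finrank_top hB0r
  have e2 := IntermediateField.relfinrank_mul_finrank_top hB01
  have e3 := IntermediateField.relfinrank_mul_finrank_top
    (le_sup_left : B1 ≤ B1 ⊔ IntermediateField.adjoin Ω {Yv x 0})
  rw [r1] at e1
  rw [r2] at e3
  rw [r3, ← e3] at e2
  rw [← e1] at e2
  have e4 : finrank (rf Ω x) κ = A0.relfinrank L' *
      finrank (B1 ⊔ IntermediateField.adjoin Ω {Yv x 0} : IntermediateField Ω κ) κ := by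
    have h5 : 2 * finrank (rf Ω x) κ = 2 * (A0.relfinrank L' *
      finrank (B1 ⊔ IntermediateField.adjoin Ω {Yv x 0} : IntermediateField Ω κ) κ) := by
      rw [← e2]
      ring
    exact Nat.eq_of_mul_eq_mul_left (by norm_num) h5
  have hoddL : Odd (finrank A0 L) := by
    rw [e4] at hodd
    rw [hdeg]
    exact (Nat.odd_mul.1 hodd).1
  -- Springer
  let tA : Fin (q + 2) → A0 := fun j => ⟨t' j, hA0t j⟩
  let ψ : MvPolynomial (Fin (q + 2)) Ω →ₐ[Ω] L := aeval fun j => algebraMap A0 L (tA j)
  have htow : IsScalarTower Ω L κ := IsScalarTower.of_algebraMap_eq fun _ => rfl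
  have hval : ∀ P, ((ψ P : L) : κ) = aeval t' P := by
    intro P
    have h1 := comp_aeval_apply (fun j => algebraMap A0 L (tA j))
      (IsScalarTower.toAlgHom Ω L κ) P
    exact h1
  have hadj : IntermediateField.adjoin Ω (Set.range ψ) =
      (IsScalarTower.toAlgHom Ω A0 L).fieldRange := by
    rw [Pool.Agent.X328.FD.fieldRange_eq (Set.range tA)
      (Pool.Agent.X328.FD.adjoin_sub_top _ _ (by
        rw [← Set.range_comp]
        rfl))]
    have hb : ∀ j, algebraMap A0 L (tA j) ∈ IntermediateField.adjoin Ω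
        (algebraMap A0 L '' Set.range tA) :=
      fun j => IntermediateField.subset_adjoin _ _ ⟨_, ⟨j, rfl⟩, rfl⟩
    apply le_antisymm
    · rw [IntermediateField.adjoin_le_iff]
      rintro _ ⟨P, rfl⟩
      show aeval (fun j => algebraMap A0 L (tA j)) P ∈ _
      rw [aeval_def, eval₂_eq]
      exact sum_mem fun α _ => mul_mem (algebraMap_mem _ _)
        (prod_mem fun i _ => pow_mem (hb i) _)
    · rw [IntermediateField.adjoin_le_iff]
      rintro _ ⟨_, ⟨j, rfl⟩, rfl⟩
      refine IntermediateField.subset_adjoin _ _ ⟨X j, ?_⟩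
      exact aeval_X _ _
  have hyL : ∀ i, y i ∈ L := fun i => IntermediateField.subset_adjoin _ _ ⟨i, rfl⟩
  set c : Fin (p + 3 + 1) → MvPolynomial (Fin (q + 2)) Ω := cq v (Fin.cons 1 X) with hc
  have hψc : ∀ i, ((ψ (c i) : L) : κ) = cq v (tt x) i := by
    intro i
    rw [hval, hc]
    have h12 : ∀ j : Fin (q + 3), aeval t'
        ((Fin.cons 1 X : Fin (q + 3) → MvPolynomial (Fin (q + 2)) Ω) j) = tt x j := by
      intro j
      refine Fin.cases ?_ (fun j => ?_) j
      · rw [Fin.cons_zero, map_one]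
        exact (div_self (z0_ne hg (iz p q m 0))).symm
      · rw [Fin.cons_succ, aeval_X]
    refine Fin.lastCases ?_ (fun i => ?_) i
    · rw [cq_last, cq_last, map_sub, map_mul, map_mul, map_pow, h12, h12, h12]
    · rw [cq_castSucc, cq_castSucc, h12]
  obtain ⟨r, ⟨i0, hi0⟩, hr⟩ := Pool.Agent.R845.E3.odd_descentK ψ
    (by rw [hadj, Pool.Agent.X328.FD.finrank_range]; exact hoddL)
    (fun i j => if i = j then c i else 0) (fun i => (⟨y i, hyL i⟩ : L)) (by
      obtain ⟨i, hi⟩ := Function.ne_iff.1 hy0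
      exact ⟨i, fun h => hi (congrArg Subtype.val h)⟩) (by
      apply Subtype.ext
      refine Eq.trans ?_ hs
      push_cast
      refine Finset.sum_congr rfl fun i _ => ?_
      rw [Finset.sum_eq_single i]
      · rw [if_pos rfl, hψc]
        ring
      · intro j _ hj
        rw [if_neg (Ne.symm hj), map_zero]
        push_cast
        ring
      · intro h
        exact absurd (Finset.mem_univ _) h)
  have h2 : (∑ i, c i * r i ^ 2) = 0 := by
    have h3 : ∑ i, ∑ j, (if i = j then c i else 0) * r i * r j = ∑ i, c i * r i ^ 2 := by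
      refine Finset.sum_congr rfl fun i _ => ?_
      rw [Finset.sum_eq_single i]
      · rw [if_pos rfl]
        ring
      · intro j _ hj
        rw [if_neg (Ne.symm hj)]
        ring
      · intro h
        exact absurd (Finset.mem_univ _) h
    rw [h3] at hr
    have h4 := congrArg (fun z : L => (z : κ)) hr
    simp only [hval] at h4
    exact (algebraicIndependent_iff.1 hti) _ h4
  have h4 := an1 (k := Ω) hv hl r (fun i hi => absurd (Set.mem_univ i) hi) h2
  rw [h4, Pi.zero_apply, map_zero] at hi0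
  exact hi0 rfl

end

end

end Pool.Agent.H900.LF
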