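import Pool.Agent.H900.LF.Ds

/-! # Transfer to the complex numbers -/

set_option autoImplicit false
set_option linter.unusedSectionVars false

namespace Pool.Agent.H900.LF

open MvPolynomial FF Module Pool.Agent.Helper93K9.PAR

noncomputable section

variable {p q m : ℕ}

/-- the special form in the original variables -/
def F00 {k : Type} [CommRing k] (v : Fin (p + 1) → Fin (q + 1)) :
    MvPolynomial (Fin (p + 3 + (q + 3))) k :=
  ∑ i, X (Fin.natAdd (p + 3) (rho v i)) * X (Fin.castAdd (q + 3) i) ^ 2 +
    (X (Fin.natAdd (p + 3) 0) * X (Fin.natAdd (p + 3) 1) * X (Fin.natAdd (p + 3) (LL q)) -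
      X (Fin.natAdd (p + 3) (LL q)) ^ 3)

theorem F00_hom {k : Type} [CommRing k] (v : Fin (p + 1) → Fin (q + 1)) :
    (F00 v : MvPolynomial (Fin (p + 3 + (q + 3))) k).IsHomogeneous 3 := by
  unfold F00
  have hX : ∀ a : Fin (p + 3 + (q + 3)), (X a : MvPolynomial _ k).IsHomogeneous 1 :=
    fun a => isHomogeneous_X k a
  refine IsHomogeneous.add (IsHomogeneous.sum _ _ _ fun i _ => ?_) (IsHomogeneous.sub ?_ ?_)
  · exact (hX _).mul ((hX _).pow 2)
  · exact ((hX _).mul (hX _)).mul (hX _)
  · exact (hX _).pow 3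

theorem F00_map {k k' : Type} [CommRing k] [CommRing k'] (f : k →+* k')
    (v : Fin (p + 1) → Fin (q + 1)) : map f (F00 v) = F00 v := by
  unfold F00
  simp only [map_add, map_sub, map_sum, map_mul, map_pow, map_X]

/-- the renaming of the variables -/
def rr (p q m : ℕ) : Fin (p + 3 + (q + 3)) → Fin (NN p q m + 2) :=
  Fin.append (ix p q m) (iz p q m)

theorem rr_inj : Function.Injective (rr p q m) := by
  intro a b
  refine Fin.addCases (fun i => ?_) (fun i => ?_) a <;>
    refine Fin.addCases (fun j => ?_) (fun j => ?_) b <;>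
    simp only [rr, Fin.append_left, Fin.append_right]
  · intro h
    rw [ix_inj h]
  · intro h
    exact absurd h (ix_ne_iz _ _)
  · intro h
    exact absurd h.symm (ix_ne_iz _ _)
  · intro h
    rw [iz_inj h]

theorem F00_rename {k : Type} [CommRing k] (v : Fin (p + 1) → Fin (q + 1)) :
    rename (rr p q m) (F00 v : MvPolynomial (Fin (p + 3 + (q + 3))) k) = Fsp m v := by
  unfold F00 Fsp
  simp only [map_add, map_sub, map_sum, map_mul, map_pow, rename_X, rr, Fin.append_left,
    Fin.append_right]

theorem rename_hom {σ τ k : Type} [CommRing k] (f : σ → τ) {H : MvPolynomial σ k} {d : ℕ}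
    (h : H.IsHomogeneous d) : (rename f H).IsHomogeneous d := h.rename_isHomogeneous

/-- **The theorem over the complex numbers**, for the coordinates of a big generic point. -/
theorem over_C {v : Fin (p + 1) → Fin (q + 1)} (hv : Function.Injective v)
    (hl : v (Fin.last p) = Fin.last q) {F : MvPolynomial (Fin (p + 3 + (q + 3))) ℂ}
    (hF : F.IsHomogeneous 3)
    (hind : AlgebraicIndependent ℚ
      (fun β : {β : Fin (p + 3 + (q + 3)) →₀ ℕ // β.degree = 3} => coeff β.1 F))
    {M : Type} [Field M] [Algebra ℂ M] (x : Fin (NN p q m + 2) → M)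
    (hx : aeval x (rename (rr p q m) F) = 0) (hx0 : x 0 ≠ 0) (hxi : AlgebraicIndependent ℂ (yx x))
    (hodd : Odd (finrank (Kc ℂ (yx x)) M))
    (u l : Fin (p + 3 + 1) → M) (hu1 : ∀ i, u (Fin.castSucc i) = x (ix p q m i))
    (hu2 : u (Fin.last (p + 3)) = x (iz p q m 0))
    (hl1 : ∀ i j, ¬ AlgebraicIndependent ℂ
      (Fin.cons (l i / l j) (fun j : Fin (q + 2) => tt x j.succ) : Fin (q + 2 + 1) → M)) :
    ¬ Relation.ReflTransGen (fun a b : Fin (p + 3 + 1) → M =>
      a ≠ 0 ∧ b ≠ 0 ∧ Lk (rename (rr p q m) F) (tt x) a b) u l := by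
  classical
  intro hch
  obtain ⟨T, hT⟩ := chain_lift hch
  obtain ⟨Ω, c, G, hΩ, hc, halg, hG, hFG⟩ := base (p + 3 + (q + 3)) F (F00 v) (by omega) hF
    (F00_hom v) hind
  have hchar : CharZero Ω := inferInstance
  set G' : MvPolynomial (Fin (NN p q m + 2)) Ω := rename (rr p q m) G with hG'
  have hG'h : G'.IsHomogeneous 3 := rename_hom _ hG
  have hFΩ : ∀ {A : Type} [CommRing A] [Algebra ℂ A] (y : Fin (NN p q m + 2) → A),
      aeval y (rename (rr p q m) F) = aeval y (Fsp m v : MvPolynomial (Fin (NN p q m + 2)) Ω) +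
        algebraMap ℂ A c * aeval y G' := by
    intro A _ _ y
    rw [hFG, map_add, map_add, map_mul, map_mul, rename_C, aeval_C]
    congr 1
    · have h1 : map (algebraMap ℚ ℂ) (F00 v) =
          map (algebraMap Ω ℂ) (F00 v : MvPolynomial (Fin (p + 3 + (q + 3))) Ω) := by
        rw [F00_map, F00_map]
      rw [h1, ← map_rename, F00_rename, aeval_map_algebraMap]
    · rw [← map_rename, aeval_map_algebraMap]
  have hfin : FiniteDimensional (Kc ℂ (yx x)) M := FiniteDimensional.of_finrank_pos hodd.pos
  obtain ⟨K, E, _, _, _, _, _, _, ι, ε, c', u', hFF, hc', hιε, hu', hTm, hTc, hdu⟩ :=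
    desc2 Ω ℂ M c hc halg (NN p q m) (yx x)
      (Finset.univ.image l ∪ (T ∪ Finset.univ.image x)) ∅ hfin
  have hEinj : Function.Injective ε := (ε : E →+* M).injective
  have hιinj : Function.Injective ι := (ι : K →+* ℂ).injective
  choose x' hεx using fun i => hTm (x i) (Finset.mem_union_right _ (Finset.mem_union_right _
    (Finset.mem_image_of_mem _ (Finset.mem_univ i))))
  choose l' hεl using fun i => hTm (l i) (Finset.mem_union_left _
    (Finset.mem_image_of_mem _ (Finset.mem_univ i)))
  have hyx' : ∀ (z : Fin (NN p q m + 2) → E) (i : Fin (NN p q m)),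
      ε (yx z i) = yx (fun i => ε (z i)) i := by
    intro z i
    unfold yx
    rw [map_div₀]
  have huy : u' = yx x' := by
    funext i
    apply hEinj
    rw [hu', hyx', funext hεx]
  have htt : ∀ j, ε (tt x' j) = tt x j := by
    intro j
    unfold tt
    rw [map_div₀, hεx, hεx]
  have hευ : ∀ y : Fin (NN p q m + 2) → E, ε (aeval y (Fc (Fsp m v) G' c')) =
      aeval (fun i => ε (y i)) (rename (rr p q m) F) := by
    intro y
    rw [LwL.aeval_fc, map_add, map_mul, hιε, hc', hFΩ, comp_aeval_apply, comp_aeval_apply]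
  have hctr : Transcendental Ω c' := by
    intro h
    apply hc
    rw [← hc']
    exact h.algHom ι
  refine core hv hl hG'h hctr x' ?_ ?_ ?_ ?_ (Fin.snoc (α := fun _ => E)
    (fun i => x' (ix p q m i)) (x' (iz p q m 0))) l' (fun i => ?_) ?_ (fun i j hij => ?_) ?_
  · apply hEinj
    rw [hευ, funext hεx, hx, map_zero]
  · intro h0
    apply hx0
    rw [← hεx, h0, map_zero]
  · apply ind_down hιε
    rw [show (fun i => ε (yx x' i)) = yx x by
      funext i
      rw [hyx', funext hεx]]
    exact hxi
  · rw [← huy, hdu]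
    exact hodd
  · rw [Fin.snoc_castSucc]
  · rw [Fin.snoc_last]
  · apply hl1 i j
    have h1 := ind_up hιε (alg_of hc' halg) hij
    have h2 : (fun a => ε ((Fin.cons (l' i / l' j) (fun j : Fin (q + 2) => tt x' j.succ) :
        Fin (q + 2 + 1) → E) a)) =
        Fin.cons (l i / l j) (fun j : Fin (q + 2) => tt x j.succ) := by
      funext a
      refine Fin.cases ?_ (fun a => ?_) a
      · show ε (l' i / l' j) = l i / l j
        rw [map_div₀, hεl, hεl]
      · exact htt _
    rw [h2] at h1
    exact h1
  · refine hT K E (Fc (Fsp m v) G' c') (ε : E →+* M) (tt x') htt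
      (fun z hz => hTm z (Finset.mem_union_right _ (Finset.mem_union_left _ hz)))
      (fun y => ?_) _ _ (fun i => ?_) hεl
    · have e1 : ∀ H : MvPolynomial (Fin (NN p q m + 2)) Ω, Polynomial.map (ε : E →+* M)
          (aeval y H) = aeval (fun i => (y i).map (ε : E →+* M)) H := by
        intro H
        have h2 := comp_aeval_apply y (Polynomial.mapAlgHom ε) H
        exact h2
      rw [aeval_fc', Polynomial.map_add, Polynomial.map_mul, hFΩ, e1, e1]
      congr 2
      rw [IsScalarTower.algebraMap_apply K E (Polynomial E), Polynomial.algebraMap_apply,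
        Polynomial.map_C]
      have h3 : (ε : E →+* M) ((algebraMap E E) ((algebraMap K E) c')) = algebraMap ℂ M c := by
        show ε (algebraMap K E c') = _
        rw [hιε, hc']
      rw [h3, IsScalarTower.algebraMap_apply ℂ M (Polynomial M), Polynomial.algebraMap_apply]
      rfl
    · refine Fin.lastCases ?_ (fun i => ?_) i
      · show ε _ = _
        rw [Fin.snoc_last, hu2, hεx]
      · show ε _ = _
        rw [Fin.snoc_castSucc, hu1, hεx]

end

end Pool.Agent.H900.LF
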