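import Mathlib

/-! # Anisotropic diagonal forms over polynomial rings -/

set_option autoImplicit false
set_option linter.unusedSectionVars false

namespace Pool.Agent.H900.LF

open MvPolynomial

noncomputable section

/-- the diagonal form with coefficients `c` has no zeros which are supported on `S` -/
def An {ι R : Type} [Fintype ι] [CommRing R] (c : ι → R) (S : Set ι) : Prop :=
  ∀ r : ι → R, (∀ i, i ∉ S → r i = 0) → ∑ i, c i * r i ^ 2 = 0 → r = 0

section

variable {ι R R' : Type} [Fintype ι] [CommRing R] [IsDomain R] [CommRing R']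

theorem An.congr {c d : ι → R} {S : Set ι} (h : An c S) (hcd : ∀ i ∈ S, c i = d i) : An d S := by
  intro r hr hs
  refine h r hr ?_
  rw [← hs]
  refine Finset.sum_congr rfl fun i _ => ?_
  by_cases hi : i ∈ S
  · rw [hcd i hi]
  · rw [hr i hi]
    ring

theorem An.mono {c : ι → R} {S T : Set ι} (h : An c S) (hT : T ⊆ S) : An c T :=
  fun r hr hs => h r (fun i hi => hr i fun h' => hi (hT h')) hs

theorem an_single (c : ι → R) (a : ι) (hc : c a ≠ 0) : An c {a} := by
  classical
  intro r hr hs
  rw [Finset.sum_eq_single a] at hs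
  · funext i
    by_cases hi : i = a
    · rw [hi]
      exact pow_eq_zero_iff (two_ne_zero) |>.1 ((mul_eq_zero.1 hs).resolve_left hc)
    · exact hr i hi
  · intro i _ hi
    rw [hr i hi]
    ring
  · intro h
    exact absurd (Finset.mem_univ a) h

open Classical in
/-- the descent -/
theorem an_step [WfDvdMonoid R] [IsDomain R'] (φ : R →+* R') (π : R) (hπ0 : π ≠ 0)
    (hπ : φ π = 0) (hker : ∀ a, φ a = 0 → π ∣ a) (c c' : ι → R) (S J : Set ι)
    (hc : ∀ i, c i = if i ∈ J then π * c' i else c' i)
    (hI : An (fun i => φ (c' i)) (S \ J)) (hJ : An (fun i => φ (c' i)) (S ∩ J)) : An c S := by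
  have hu : ¬ IsUnit π := by
    intro h
    have h1 := h.map φ
    rw [hπ] at h1
    exact not_isUnit_zero h1
  -- one step
  have step : ∀ r : ι → R, (∀ i, i ∉ S → r i = 0) → ∑ i, c i * r i ^ 2 = 0 →
      ∃ r' : ι → R, (∀ i, r i = π * r' i) ∧ (∀ i, i ∉ S → r' i = 0) ∧
        ∑ i, c i * r' i ^ 2 = 0 := by
    intro r hr hs
    have h1 : (fun i => if i ∈ J then 0 else φ (r i)) = (0 : ι → R') := by
      apply hI
      · intro i hi
        by_cases hiJ : i ∈ J
        · rw [if_pos hiJ]
        · rw [if_neg hiJ, hr i fun h => hi ⟨h, hiJ⟩, map_zero]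
      · have h2 := congrArg φ hs
        rw [map_sum, map_zero] at h2
        refine Eq.trans (Finset.sum_congr rfl fun i _ => ?_) h2
        rw [map_mul, map_pow, hc i]
        split_ifs with hiJ
        · rw [map_mul, hπ]
          ring
        · rfl
    have h2 : ∀ i, ∃ s, (i ∉ J → r i = π * s) ∧ (i ∈ J → s = 0) ∧ (i ∉ S → s = 0) := by
      intro i
      by_cases hiJ : i ∈ J
      · exact ⟨0, fun h => absurd hiJ h, fun _ => rfl, fun _ => rfl⟩
      · have h3 := congrFun h1 i
        rw [if_neg hiJ] at h3
        obtain ⟨s, hs⟩ := hker _ h3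
        refine ⟨s, fun _ => hs, fun h => absurd h hiJ, fun h => ?_⟩
        rw [hr i h] at hs
        exact (mul_eq_zero.1 hs.symm).resolve_left hπ0
    choose s hs1 hs2 hs3 using h2
    -- divide by `π`
    have h3 : ∑ i, (if i ∈ J then c' i * r i ^ 2 else π * (c' i * s i ^ 2)) = 0 := by
      have h4 : π * ∑ i, (if i ∈ J then c' i * r i ^ 2 else π * (c' i * s i ^ 2)) = 0 := by
        rw [← hs, Finset.mul_sum]
        refine Finset.sum_congr rfl fun i _ => ?_
        rw [hc i]
        split_ifs with hiJ
        · ring
        · rw [hs1 i hiJ]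
          ring
      exact (mul_eq_zero.1 h4).resolve_left hπ0
    have h5 : (fun i => if i ∈ J then φ (r i) else 0) = (0 : ι → R') := by
      apply hJ
      · intro i hi
        by_cases hiJ : i ∈ J
        · rw [if_pos hiJ, hr i fun h => hi ⟨h, hiJ⟩, map_zero]
        · rw [if_neg hiJ]
      · have h6 := congrArg φ h3
        rw [map_sum, map_zero] at h6
        refine Eq.trans (Finset.sum_congr rfl fun i _ => ?_) h6
        split_ifs with hiJ
        · rw [map_mul, map_pow]
        · rw [map_mul, hπ]
          ring
    have h6 : ∀ i, ∃ u, r i = π * u := by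
      intro i
      by_cases hiJ : i ∈ J
      · have h7 := congrFun h5 i
        rw [if_pos hiJ] at h7
        exact hker _ h7
      · exact ⟨s i, hs1 i hiJ⟩
    choose u hu using h6
    refine ⟨u, hu, fun i hi => ?_, ?_⟩
    · have h7 := hu i
      rw [hr i hi] at h7
      exact (mul_eq_zero.1 h7.symm).resolve_left hπ0
    · have h7 : π ^ 2 * ∑ i, c i * u i ^ 2 = 0 := by
        rw [← hs, Finset.mul_sum]
        refine Finset.sum_congr rfl fun i _ => ?_
        rw [hu i]
        ring
      exact (mul_eq_zero.1 h7).resolve_left (pow_ne_zero _ hπ0)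
  -- infinite descent
  have all : ∀ k : ℕ, ∀ r : ι → R, (∀ i, i ∉ S → r i = 0) → ∑ i, c i * r i ^ 2 = 0 →
      ∀ i, π ^ k ∣ r i := by
    intro k
    induction k with
    | zero => intro r _ _ i; rw [pow_zero]; exact one_dvd _
    | succ k ih =>
      intro r hr hs i
      obtain ⟨r', h1, h2, h3⟩ := step r hr hs
      rw [h1 i, pow_succ']
      exact mul_dvd_mul_left _ (ih r' h2 h3 i)
  intro r hr hs
  funext i
  by_contra hne
  obtain ⟨k, hk⟩ := FiniteMultiplicity.of_not_isUnit hu hne
  exact hk (all (k + 1) r hr hs i)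

end

section poly

variable {σ ι k : Type} [Field k] [Fintype ι]

open Classical in
/-- the substitution `X a ↦ g` -/
def sub (a : σ) (g : MvPolynomial σ k) : MvPolynomial σ k →ₐ[k] MvPolynomial σ k :=
  aeval (Function.update X a g)

theorem sub_self (a : σ) (g : MvPolynomial σ k) : sub a g (X a) = g := by
  classical
  rw [sub, aeval_X, Function.update_self]

theorem sub_ne {a b : σ} (h : b ≠ a) (g : MvPolynomial σ k) : sub a g (X b) = X b := by
  classical
  rw [sub, aeval_X, Function.update_of_ne h]

theorem sub_dvd (a : σ) (g p : MvPolynomial σ k) : (X a - g) ∣ p - sub a g p := by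
  classical
  rw [← Ideal.mem_span_singleton, ← Ideal.Quotient.eq]
  have h1 : (Ideal.Quotient.mkₐ k (Ideal.span {X a - g})).comp (AlgHom.id k (MvPolynomial σ k)) =
      (Ideal.Quotient.mkₐ k (Ideal.span {X a - g})).comp (sub a g) := by
    apply algHom_ext
    intro b
    rw [AlgHom.comp_apply, AlgHom.comp_apply, AlgHom.id_apply]
    by_cases hb : b = a
    · rw [hb, sub_self]
      show Ideal.Quotient.mk _ _ = Ideal.Quotient.mk _ _
      rw [Ideal.Quotient.eq, Ideal.mem_span_singleton]
    · rw [sub_ne hb]
  exact DFunLike.congr_fun h1 p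

theorem sub_ker (a : σ) (g p : MvPolynomial σ k) (h : sub a g p = 0) : (X a - g) ∣ p := by
  have h1 := sub_dvd a g p
  rwa [h, sub_zero] at h1

/-- setting a variable to zero -/
theorem an_zero [Finite σ] (a : σ) (c : ι → MvPolynomial σ k) (S : Set ι)
    (h : An (fun i => sub a 0 (c i)) S) : An c S := by
  classical
  refine an_step (sub a (0 : MvPolynomial σ k)).toRingHom (X a) (X_ne_zero a) (sub_self a 0)
    (fun p hp => ?_) c c S ∅ (fun i => by rw [if_neg (Set.notMem_empty i)]) ?_ ?_
  · have h1 := sub_ker a 0 p hp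
    rwa [sub_zero] at h1
  · rw [Set.sdiff_empty]
    exact h
  · rw [Set.inter_empty]
    intro r hr _
    funext i
    exact hr i (Set.notMem_empty i)

/-- setting several variables to zero -/
theorem an_zeros [Finite σ] (T : Finset σ) (c : ι → MvPolynomial σ k) (S : Set ι)
    (e : MvPolynomial σ k →ₐ[k] MvPolynomial σ k) (he0 : ∀ a ∈ T, e (X a) = 0)
    (he1 : ∀ a, a ∉ T → e (X a) = X a) (h : An (fun i => e (c i)) S) : An c S := by
  classical
  induction T using Finset.induction_on generalizing c e with
  | empty =>
    have h1 : e = AlgHom.id k _ := by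
      apply algHom_ext
      intro a
      rw [he1 a (Finset.notMem_empty a)]
      rfl
    rw [h1] at h
    exact h
  | insert a T ha ih =>
    apply an_zero a
    let e' : MvPolynomial σ k →ₐ[k] MvPolynomial σ k := aeval fun b => if b ∈ T then 0 else X b
    have he' : e'.comp (sub a 0) = e := by
      apply algHom_ext
      intro b
      rw [AlgHom.comp_apply]
      by_cases hb : b = a
      · rw [hb, sub_self, map_zero, he0 a (Finset.mem_insert_self a T)]
      · rw [sub_ne hb, aeval_X]
        split_ifs with hbT
        · rw [he0 b (Finset.mem_insert_of_mem hbT)]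
        · rw [he1 b]
          rw [Finset.mem_insert]
          tauto
    refine ih _ e' (fun b hb => ?_) (fun b hb => ?_) ?_
    · rw [aeval_X, if_pos hb]
    · rw [aeval_X, if_neg hb]
    · rw [← he'] at h
      exact h

/-- the form `⟨1, X_(v a), …⟩` -/
theorem an_vars [Finite σ] (c : ι → MvPolynomial σ k) (i0 : ι) (T : Finset ι)
    (v : ι → σ) (hv : Set.InjOn v T) (h0 : c i0 = 1) (hi0 : i0 ∉ T)
    (hT : ∀ i ∈ T, c i = X (v i)) : An c (insert i0 (T : Set ι)) := by
  classical
  induction T using Finset.induction_on generalizing c with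
  | empty =>
    rw [Finset.coe_empty, insert_empty_eq]
    exact an_single c i0 (by rw [h0]; exact one_ne_zero)
  | insert a T ha ih =>
    have hia : i0 ≠ a := fun h => hi0 (by rw [h]; exact Finset.mem_insert_self a T)
    have hiT : i0 ∉ T := fun h => hi0 (Finset.mem_insert_of_mem h)
    have hc' : ∀ i ∈ T, sub (v a) 0 (Function.update c a 1 i) = X (v i) := by
      intro i hi
      have hne : i ≠ a := fun h => ha (h ▸ hi)
      rw [Function.update_of_ne hne, hT i (Finset.mem_insert_of_mem hi), sub_ne]
      intro h
      exact hne (hv (Finset.mem_coe.2 (Finset.mem_insert_of_mem hi))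
        (Finset.mem_coe.2 (Finset.mem_insert_self a T)) h)
    refine an_step (sub (v a) (0 : MvPolynomial σ k)).toRingHom (X (v a)) (X_ne_zero _)
      (sub_self _ 0) (fun p hp => ?_) c (Function.update c a 1) _ {a} (fun i => ?_) ?_ ?_
    · have h1 := sub_ker (v a) 0 p hp
      rwa [sub_zero] at h1
    · rw [Set.mem_singleton_iff]
      split_ifs with h
      · rw [h, Function.update_self, mul_one, hT a (Finset.mem_insert_self a T)]
      · rw [Function.update_of_ne h]
    · refine (ih (fun i => sub (v a) 0 (Function.update c a 1 i)) ?_ ?_ hiT hc').mono ?_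
      · exact hv.mono (by rw [Finset.coe_insert]; exact Set.subset_insert _ _)
      · show sub (v a) 0 (Function.update c a 1 i0) = 1
        rw [Function.update_of_ne hia, h0, map_one]
      · rintro i ⟨hi, hia'⟩
        rw [Finset.coe_insert] at hi
        rcases hi with hi | hi | hi
        · exact Or.inl hi
        · exact absurd hi hia'
        · exact Or.inr hi
    · refine An.mono (an_single _ a ?_) Set.inter_subset_right
      show sub (v a) 0 (Function.update c a 1 a) ≠ 0
      rw [Function.update_self, map_one]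
      exact one_ne_zero

end poly

end

end Pool.Agent.H900.LF
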