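import Pool.Agent.H900.LF.Sr

/-! # The theorem over function fields -/

set_option autoImplicit false
set_option linter.unusedSectionVars false

namespace Pool.Agent.H900.LF

open MvPolynomial FF Module Pool.Agent.Helper93K9.PAR

noncomputable section

variable {p q m : ℕ}

section place

variable {Ω K E : Type} [Field Ω] [IsAlgClosed Ω] [CharZero Ω] [Field K] [Field E] [Algebra Ω K]
    [Algebra K E] [Algebra Ω E] [IsScalarTower Ω K E] [IsFF Ω K]

/-- **The theorem over function fields.** -/
theorem core {v : Fin (p + 1) → Fin (q + 1)} (hv : Function.Injective v)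
    (hl : v (Fin.last p) = Fin.last q) {G : MvPolynomial (Fin (NN p q m + 2)) Ω}
    (hG : G.IsHomogeneous 3) {c : K} (hc : Transcendental Ω c)
    (x : Fin (NN p q m + 2) → E) (hx : aeval x (Fc (Fsp m v) G c) = 0) (hx0 : x 0 ≠ 0)
    (hxi : AlgebraicIndependent K (yx x)) (hodd : Odd (finrank (Kc K (yx x)) E))
    (u l : Fin (p + 3 + 1) → E) (hu1 : ∀ i, u (Fin.castSucc i) = x (ix p q m i))
    (hu2 : u (Fin.last (p + 3)) = x (iz p q m 0))
    (hl1 : ∀ i j, ¬ AlgebraicIndependent K
      (Fin.cons (l i / l j) (fun j : Fin (q + 2) => tt x j.succ) : Fin (q + 2 + 1) → E)) :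
    ¬ Relation.ReflTransGen (fun a b : Fin (p + 3 + 1) → E =>
      a ≠ 0 ∧ b ≠ 0 ∧ Lk (Fc (Fsp m v) G c) (tt x) a b) u l := by
  classical
  intro hch
  obtain ⟨SP, hSP, -, hSP3⟩ := FF.zeros (k := Ω) (K := K) hc
  have hfd : FiniteDimensional (IntermediateField.adjoin Ω {c}) K := IsFF.finite hc
  have hpos : 0 < finrank (IntermediateField.adjoin Ω {c}) K := finrank_pos
  have hne : SP.Nonempty := by
    rw [Finset.nonempty_iff_ne_empty]
    rintro rfl
    rw [Finset.sum_empty] at hSP3
    omega
  obtain ⟨P, hP⟩ := hne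
  have hPc : 0 < P.ord c := (hSP P).1 hP
  obtain ⟨ϖ, h0, h1⟩ := P.surj
  have hc0 : c ≠ 0 := by
    rintro rfl
    rw [P.ord_zero] at hPc
    exact lt_irrefl _ hPc
  have hfin : FiniteDimensional (Kc K (yx x)) E := by
    apply FiniteDimensional.of_finrank_pos
    obtain ⟨d, hd⟩ := hodd
    omega
  obtain ⟨S, hS, hSodd⟩ := TrL.count cub res Ω K E (NN p q m) (Fsp m v) G (Fsp_hom v) hG
    (Fsp_irr v) (Fsp_last v) c P hPc ϖ h0 h1 x hx hx0 hxi hfin
  have hSne : S.Nonempty := by
    rw [Finset.nonempty_iff_ne_empty]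
    rintro rfl
    rw [Finset.sum_empty] at hSodd
    exact absurd (hSodd.1 hodd) (by decide)
  obtain ⟨w, hw⟩ := hSne
  obtain ⟨hwr, hww, hwg⟩ := (hS w).1 hw
  have hwc : 0 < w.ord (algebraMap K E c) := ResL.ord_pos P w h0 h1 hwr hww hc0 hPc
  obtain ⟨-, hreg, hgen, hodd'⟩ := hwg
  set xb : Fin (NN p q m + 2) → w.RF := fun i => w.red (x i / x 0) with hxb
  have hz0 : xb (iz p q m 0) ≠ 0 := z0_ne hgen _
  have hzr : w.Reg (x (iz p q m 0) / x 0) := hreg _
  have hz00 : x (iz p q m 0) ≠ 0 := by
    intro h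
    apply hz0
    rw [hxb]
    simp only
    rw [h, zero_div, w.red_zero]
  have hzinv : w.Reg (x (iz p q m 0) / x 0)⁻¹ := by
    right
    rw [w.ord_inv]
    have h2 := (w.reg_iff (div_ne_zero hz00 hx0)).1 hzr
    have h3 : ¬ 0 < w.ord (x (iz p q m 0) / x 0) := by
      intro h
      exact hz0 ((w.red_eq_zero_iff hzr).2 (Or.inr h))
    omega
  have hrat : ∀ a, x a / x (iz p q m 0) = (x a / x 0) * (x (iz p q m 0) / x 0)⁻¹ := by
    intro a
    field_simp
  have hratr : ∀ a, w.Reg (x a / x (iz p q m 0)) := by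
    intro a
    rw [hrat]
    exact w.reg_mul (hreg a) hzinv
  have hratred : ∀ a, w.red (x a / x (iz p q m 0)) = xb a / xb (iz p q m 0) := by
    intro a
    have h2 : (x a / x (iz p q m 0)) * (x (iz p q m 0) / x 0) = x a / x 0 := by
      field_simp
    have h3 := w.red_mul (hratr a) hzr
    rw [h2] at h3
    rw [eq_div_iff hz0]
    exact h3.symm
  have ht : ∀ j, w.Reg (tt x j) := fun j => hratr _
  have htred : ∀ j, w.red (tt x j) = tt xb j := fun j => hratred _
  have hne : NE w v (tt x) := by
    intro y hy hs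
    simp only [htred] at hs
    exact ne_kappa hv hl hgen hodd' y hy hs
  have hstart : RZ w (g2 v (tt x)) u := by
    have hl0 : u (Fin.last (p + 3)) ≠ 0 := by rw [hu2]; exact hz00
    have hur : ∀ i, w.Reg (u i / u (Fin.last (p + 3))) := by
      intro i
      rw [hu2]
      refine Fin.lastCases ?_ (fun i => ?_) i
      · rw [hu2]
        exact hratr _
      · rw [hu1]
        exact hratr _
    refine ⟨Fin.last (p + 3), hl0, hur, ?_⟩
    rw [red_g2 ht hur]
    simp only [htred]
    have h2 := hgen.1
    have h3 : aeval (pt m (tt xb) (fun i => w.red (u i / u (Fin.last (p + 3))))) (Fsp m v :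
        MvPolynomial (Fin (NN p q m + 2)) Ω) = 0 := by
      have h4 : ∀ H : MvPolynomial (Fin (NN p q m + 2)) Ω, True := fun _ => trivial
      rw [aeval_Fsp]
      simp only [pt_ix, pt_iz]
      have h5 : w.red (u (Fin.last (p + 3)) / u (Fin.last (p + 3))) = 1 := by
        rw [div_self hl0, w.red_one]
      have h6 : ∀ i : Fin (p + 3), w.red (u i.castSucc / u (Fin.last (p + 3))) =
          xb (ix p q m i) / xb (iz p q m 0) := by
        intro i
        rw [hu1, hu2, hratred]
      simp only [h5, h6, one_mul]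
      rw [aeval_Fsp] at h2
      unfold tt
      have h7 : ∑ i : Fin (p + 3), xb (iz p q m (rho v i)) / xb (iz p q m 0) *
          (xb (ix p q m i) / xb (iz p q m 0)) ^ 2 =
          (∑ i, xb (iz p q m (rho v i)) * xb (ix p q m i) ^ 2) / xb (iz p q m 0) ^ 3 := by
        rw [Finset.sum_div]
        refine Finset.sum_congr rfl fun i _ => ?_
        field_simp
      rw [h7]
      field_simp
      linear_combination h2
    rw [aeval_pt] at h3
    have h5 : w.red (u (Fin.last (p + 3)) / u (Fin.last (p + 3))) = 1 := by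
      rw [div_self hl0, w.red_one]
    rw [h5, one_mul] at h3
    exact h3
  have hend : ¬ RZ w (g2 v (tt x)) l := by
    rintro ⟨i0, hi0, hlr, hlz⟩
    rw [red_g2 ht hlr] at hlz
    simp only [htred] at hlz
    refine no_alg hv hl hgen hodd' (fun i => w.red (l i / l i0)) (fun i hi => ?_) (fun h => ?_) hlz
    · refine hl1 i i0 ?_
      refine ((res Ω K E P w ϖ h0 h1 hwr hww).2 (q + 2 + 1)
        (Fin.cons (l i / l i0) (fun j : Fin (q + 2) => tt x j.succ)) ?_).2 ?_
      · intro j
        refine Fin.cases ?_ (fun j => ?_) j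
        · exact hlr i
        · exact ht _
      · have h2 : (fun j => w.red ((Fin.cons (l i / l i0) (fun j : Fin (q + 2) => tt x j.succ) :
            Fin (q + 2 + 1) → E) j)) =
            Fin.cons (w.red (l i / l i0)) (fun j : Fin (q + 2) => tt xb j.succ) := by
          funext j
          refine Fin.cases ?_ (fun j => ?_) j
          · rfl
          · exact htred _
        rw [h2]
        exact hi
    · have h2 := congrFun h i0
      simp only [div_self hi0, w.red_one, Pi.zero_apply] at h2
      exact one_ne_zero h2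
  apply hend
  clear hl1 hend
  induction hch with
  | refl => exact hstart
  | tail _ h ih => exact (lk_iff hwc ht hne hG h.1 h.2.1 h.2.2).1 ih

end place

end

end Pool.Agent.H900.LF
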