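import Pool.Agent.H900.LF.Rs

/-! # Independence in the residue field -/

set_option autoImplicit false
set_option linter.unusedSectionVars false

namespace Pool.Agent.H900.LF

open MvPolynomial FF Module Pool.Agent.Helper93K9.PAR

noncomputable section

variable {p q m : ℕ}

section

variable {Ω κ : Type} [Field Ω] [CharZero Ω] [Field κ] [Algebra Ω κ]
  {v : Fin (p + 1) → Fin (q + 1)} {x : Fin (NN p q m + 2) → κ}

/-- the other parameters -/
def bc (x : Fin (NN p q m + 2) → κ) : Fin (q + 2) ⊕ (Fin (p + 2) ⊕ Fin m) → κ :=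
  Sum.elim (fun j => tt x j.succ)
    (Sum.elim (fun i => x (ix p q m i.succ) / x (iz p q m 0))
      fun l => x (ir p q m l) / x (iz p q m 0))

theorem bc_indep (hg : Gen (Fsp m v : MvPolynomial (Fin (NN p q m + 2)) Ω) x)
    (hodd : Odd (finrank (rf Ω x) κ)) : AlgebraicIndependent Ω (bc x) := by
  classical
  have hz := z0_ne hg (iz p q m 0)
  set A := IntermediateField.adjoin Ω (Set.range (bc x)) with hA
  have hb : ∀ s, bc x s ∈ A := fun s => IntermediateField.subset_adjoin _ _ ⟨s, rfl⟩
  have htt : ∀ j, tt x j ∈ A := by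
    intro j
    refine Fin.cases ?_ (fun j => ?_) j
    · have h1 : tt x 0 = 1 := div_self hz
      rw [h1]
      exact one_mem _
    · exact hb (Sum.inl j)
  have hyi : ∀ i : Fin (p + 2), x (ix p q m i.succ) / x (iz p q m 0) ∈ A :=
    fun i => hb (Sum.inr (Sum.inl i))
  have hsq : (x (ix p q m 0) / x (iz p q m 0)) ^ 2 ∈ A := by
    have h1 := hg.1
    rw [aeval_Fsp, Fin.sum_univ_succ] at h1
    have h2 : (x (ix p q m 0) / x (iz p q m 0)) ^ 2 =
        -(∑ i : Fin (p + 2), tt x (rho v i.succ) * (x (ix p q m i.succ) / x (iz p q m 0)) ^ 2 +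
          (tt x 1 * tt x (LL q) - tt x (LL q) ^ 3)) := by
      have h3 : ∑ i : Fin (p + 2), tt x (rho v i.succ) *
          (x (ix p q m i.succ) / x (iz p q m 0)) ^ 2 =
          (∑ i : Fin (p + 2), x (iz p q m (rho v i.succ)) * x (ix p q m i.succ) ^ 2) /
            x (iz p q m 0) ^ 3 := by
        rw [Finset.sum_div]
        refine Finset.sum_congr rfl fun i _ => ?_
        unfold tt
        field_simp
      have e0 : rho v 0 = 0 := rfl
      rw [e0] at h1
      rw [h3]
      unfold tt
      field_simp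
      linear_combination h1
    rw [h2]
    exact neg_mem (add_mem (sum_mem fun i _ => mul_mem (htt _) (pow_mem (hyi i) 2))
      (sub_mem (mul_mem (htt _) (htt _)) (pow_mem (htt _) 3)))
  have hle : A ≤ rf Ω x := by
    rw [hA, IntermediateField.adjoin_le_iff]
    rintro _ ⟨(j | i | l), rfl⟩
    · exact IntermediateField.subset_adjoin _ _ ⟨_, _, rfl⟩
    · exact IntermediateField.subset_adjoin _ _ ⟨_, _, rfl⟩
    · exact IntermediateField.subset_adjoin _ _ ⟨_, _, rfl⟩
  have halg : ∀ z ∈ rf Ω x, IsAlgebraic A z := by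
    have h1 : rf Ω x ≤ (algebraicClosure A κ).restrictScalars Ω := by
      have h3 : ∀ a, x a / x (iz p q m 0) ∈ (algebraicClosure A κ).restrictScalars Ω := by
        have h4 : ∀ z ∈ A, z ∈ (algebraicClosure A κ).restrictScalars Ω := by
          intro z hz
          exact (algebraicClosure A κ).algebraMap_mem ⟨z, hz⟩
        intro a
        rcases cases_idx a with ⟨i, rfl⟩ | ⟨l, rfl⟩ | ⟨j, rfl⟩
        · refine Fin.cases ?_ (fun i => ?_) i
          · rw [IntermediateField.mem_restrictScalars, mem_algebraicClosure_iff']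
            refine IsIntegral.of_pow (n := 2) (by norm_num) ?_
            have h5 : (x (ix p q m 0) / x (iz p q m 0)) ^ 2 = algebraMap A κ ⟨_, hsq⟩ := rfl
            rw [h5]
            exact isIntegral_algebraMap
          · exact h4 _ (hyi i)
        · exact h4 _ (hb (Sum.inr (Sum.inr l)))
        · exact h4 _ (htt j)
      rw [rf, IntermediateField.adjoin_le_iff]
      rintro _ ⟨i, j, rfl⟩
      have h4 : x i / x j = (x i / x (iz p q m 0)) / (x j / x (iz p q m 0)) := by
        rw [div_div_div_cancel_right₀ hz]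
      rw [h4]
      exact div_mem (h3 i) (h3 j)
    intro z hz
    exact mem_algebraicClosure_iff.1 ((IntermediateField.mem_restrictScalars Ω).1 (h1 hz))
  refine Pool.Agent.X328.FD.indep_count (y := yx x) (fun z => ?_) (yx_indep hg) ?_
  · exact Pool.Agent.X328.FD.alg_trans hle halg (alg_rf hodd z)
  · simp only [Cardinal.mk_sum, Cardinal.lift_id, Cardinal.mk_fin]
    push_cast
    apply le_of_eq
    ring

theorem tt_indep (hg : Gen (Fsp m v : MvPolynomial (Fin (NN p q m + 2)) Ω) x)
    (hodd : Odd (finrank (rf Ω x) κ)) :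
    AlgebraicIndependent Ω (fun j : Fin (q + 2) => tt x j.succ) :=
  (bc_indep hg hodd).comp (Sum.inl : Fin (q + 2) → Fin (q + 2) ⊕ (Fin (p + 2) ⊕ Fin m))
    Sum.inl_injective

end

end

end Pool.Agent.H900.LF
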