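import Pool.Agent.H900.LF.Co

/-! # Descent to function fields of one variable -/

set_option autoImplicit false
set_option linter.unusedSectionVars false

namespace Pool.Agent.H900.LF

open MvPolynomial FF Module Pool.Agent.Helper93K9.PAR

noncomputable section

/-- descent of finitely many elements of `M` and of finitely many constants -/
theorem desc2 (Ω C M : Type) [Field Ω] [IsAlgClosed Ω] [CharZero Ω] [Field C] [Field M]
    [Algebra Ω C] [Algebra C M] [Algebra Ω M] [IsScalarTower Ω C M] (c : C)
    (hc : Transcendental Ω c) (halg : Algebra.IsAlgebraic (IntermediateField.adjoin Ω {c}) C)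
    (a : ℕ) (u : Fin a → M) (Tm : Finset M) (Tc : Finset C) (hfu : FiniteDimensional (Kc C u) M) :
    ∃ (K E : Type) (_ : Field K) (_ : Field E) (_ : Algebra Ω K) (_ : Algebra K E)
      (_ : Algebra Ω E) (_ : IsScalarTower Ω K E) (ι : K →ₐ[Ω] C) (ε : E →ₐ[Ω] M) (c' : K)
      (u' : Fin a → E),
      IsFF Ω K ∧ ι c' = c ∧ (∀ z, ε (algebraMap K E z) = algebraMap C M (ι z)) ∧
      (∀ i, ε (u' i) = u i) ∧ (∀ z ∈ Tm, ∃ z', ε z' = z) ∧ (∀ z ∈ Tc, ∃ z', ι z' = z) ∧
      finrank (Kc K u') E = finrank (Kc C u) M := by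
  classical
  obtain ⟨B, hB⟩ : ∃ B : Basis (Fin (finrank (Kc C u) M)) (Kc C u) M, B = Module.finBasis _ _ :=
    ⟨_, rfl⟩
  clear hB
  obtain ⟨T, hT⟩ := desc_span_fin (Ω := Ω) (C := C) (Set.range u) B (fun x => B.mem_span x)
    (ι := (Fin (finrank (Kc C u) M) × Fin (finrank (Kc C u) M)) ⊕
      (Unit ⊕ Tm))
    (Sum.elim (fun p => B p.1 * B p.2) (Sum.elim (fun _ => 1) (fun z => z.1)))
  obtain ⟨K, hK⟩ : ∃ K : IntermediateField Ω C,
      K = IntermediateField.adjoin Ω ((insert c (T ∪ Tc) : Finset C) : Set C) := ⟨_, rfl⟩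
  have hTK : IntermediateField.adjoin Ω (T : Set C) ≤ K := by
    rw [hK]
    refine IntermediateField.adjoin.mono _ _ _ (Finset.coe_subset.2 ?_)
    intro z hz
    simp [hz]
  have hTc : ∀ z ∈ Tc, z ∈ K := by
    intro z hz
    rw [hK]
    exact IntermediateField.subset_adjoin _ _ (by simp [hz])
  have hcK : c ∈ K := by
    rw [hK]
    exact IntermediateField.subset_adjoin _ _ (by simp)
  have hFF : IsFF Ω K := by
    have hcK' : Transcendental Ω (⟨c, hcK⟩ : K) := by
      intro h
      exact hc h.algebraMap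
    have h1 : AlgebraicIndependent Ω (fun _ : Unit => c) := by
      rw [algebraicIndependent_unique_type_iff]
      exact hc
    have h2 : IsTranscendenceBasis Ω (fun _ : Unit => c) := by
      rw [isTranscendenceBasis_iff_algebraicIndependent_isAlgebraic]
      refine ⟨h1, ?_⟩
      have h3 : Set.range (fun _ : Unit => c) = {c} := by simp
      rw [h3]
      open scoped IntermediateField.algebraAdjoinAdjoin in
      exact Algebra.IsAlgebraic.trans (Algebra.adjoin Ω {c}) (IntermediateField.adjoin Ω {c}) C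
    have h3 : Algebra.trdeg Ω C = 1 := by
      have := h2.lift_cardinalMk_eq_trdeg
      simpa using this.symm
    constructor
    · refine IntermediateField.essFiniteType_iff.2 ⟨insert c (T ∪ Tc), hK.symm⟩
    · refine le_antisymm ?_ ?_
      · rw [← h3]
        exact _root_.trdeg_le_of_injective K.val K.val.injective
      · have h4 : AlgebraicIndependent Ω (fun _ : Unit => (⟨c, hcK⟩ : K)) := by
          rw [algebraicIndependent_unique_type_iff]
          exact hcK'
        have := h4.lift_cardinalMk_le_trdeg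
        simpa using this
  have hS : ∀ i, Sum.elim (fun p : Fin (finrank (Kc C u) M) × Fin (finrank (Kc C u) M) =>
      B p.1 * B p.2) (Sum.elim (fun _ : Unit => (1 : M)) (fun z : Tm => z.1)) i ∈
      Submodule.span (IntermediateField.adjoin K (Set.range u)) (Set.range B) :=
    fun i => desc_span_mono hTK _ (hT i)
  obtain ⟨G, hG⟩ : ∃ G : Set M, G = Set.range u ∪ (Tm : Set M) ∪ Set.range B := ⟨_, rfl⟩
  have gu : ∀ i, u i ∈ G := fun i => by rw [hG]; simp
  have gt : ∀ z ∈ Tm, z ∈ G := fun i hi => by rw [hG]; simp [hi]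
  have gB : ∀ i, B i ∈ G := fun i => by rw [hG]; simp
  have sG : ∀ g ∈ G, g ∈ Submodule.span (IntermediateField.adjoin K (Set.range u))
      (Set.range B) := by
    intro g hg
    rw [hG] at hg
    rcases hg with (⟨i, rfl⟩ | hg) | ⟨i, rfl⟩
    · have h1 := Submodule.smul_mem _ (⟨u i, IntermediateField.subset_adjoin _ _ ⟨i, rfl⟩⟩ :
        IntermediateField.adjoin K (Set.range u)) (hS (Sum.inr (Sum.inl ())))
      have h2 : (⟨u i, IntermediateField.subset_adjoin _ _ ⟨i, rfl⟩⟩ :
        IntermediateField.adjoin K (Set.range u)) • (1 : M) = u i := mul_one _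
      rw [← h2]
      exact h1
    · exact hS (Sum.inr (Sum.inr ⟨g, hg⟩))
    · exact Submodule.subset_span ⟨i, rfl⟩
  have mE : ∀ g ∈ G, g ∈ IntermediateField.adjoin K G := fun g hg =>
    IntermediateField.subset_adjoin _ _ hg
  refine ⟨K, IntermediateField.adjoin K G, inferInstance, inferInstance, inferInstance,
    inferInstance, inferInstance, inferInstance, K.val,
    (IntermediateField.adjoin K G).val.restrictScalars Ω, ⟨c, hcK⟩, fun i => ⟨u i, mE _ (gu i)⟩,
    hFF, rfl, fun z => rfl, fun i => rfl, fun z hz => ⟨⟨z, mE _ (gt z hz)⟩, rfl⟩,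
    fun z hz => ⟨⟨z, hTc z hz⟩, rfl⟩, ?_⟩
  refine desc_rank (IntermediateField.adjoin K G) u _ (fun i => rfl) B B.linearIndependent
    (fun i => mE _ (gB i)) (fun z hz => ?_)
  exact desc_sub u B G (hS (Sum.inr (Sum.inl ()))) (fun i j => hS (Sum.inl (i, j))) sG hz

variable {p q m : ℕ}

/-- polynomials whose coefficients lift can be lifted -/
theorem lift_poly {E M : Type} [Field E] [Field M] (ε : E →+* M) (C : Polynomial M)
    (h : ∀ j, ∃ z, ε z = C.coeff j) : ∃ C' : Polynomial E, C'.map ε = C := by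
  choose z hz using h
  refine ⟨∑ j ∈ C.support, Polynomial.monomial j (z j), ?_⟩
  rw [Polynomial.map_sum]
  conv_rhs => rw [C.as_sum_support]
  refine Finset.sum_congr rfl fun j _ => ?_
  rw [Polynomial.map_monomial, hz]

theorem chain_lift {M k : Type} [Field M] [Field k] [Algebra k M]
    {F : MvPolynomial (Fin (NN p q m + 2)) k} {t : Fin (q + 3) → M}
    {l a : Fin (p + 3 + 1) → M}
    (h : Relation.ReflTransGen (fun a b : Fin (p + 3 + 1) → M => a ≠ 0 ∧ b ≠ 0 ∧ Lk F t a b) a l) :
    ∃ T : Finset M, ∀ (K E : Type) [Field K] [Field E] [Algebra K E]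
      (F' : MvPolynomial (Fin (NN p q m + 2)) K) (ε : E →+* M) (t' : Fin (q + 3) → E),
      (∀ j, ε (t' j) = t j) → (∀ z ∈ T, ∃ z', ε z' = z) →
      (∀ y : Fin (NN p q m + 2) → Polynomial E, (aeval y F').map ε =
        aeval (fun i => (y i).map ε) F) →
      ∀ a' l' : Fin (p + 3 + 1) → E, (∀ i, ε (a' i) = a i) → (∀ i, ε (l' i) = l i) →
      Relation.ReflTransGen (fun a b : Fin (p + 3 + 1) → E =>
        a ≠ 0 ∧ b ≠ 0 ∧ Lk F' t' a b) a' l' := by
  classical
  induction h using Relation.ReflTransGen.head_induction_on with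
  | refl =>
    refine ⟨∅, fun K E _ _ _ F' ε t' _ _ _ a' l' ha hl => ?_⟩
    have h1 : a' = l' := by
      funext i
      apply ε.injective
      rw [ha, hl]
    rw [h1]
  | head h1 hbl ih =>
    rename_i a b
    obtain ⟨T, hT⟩ := ih
    obtain ⟨ha0, hb0, D, C, hD, hC, ⟨s1, hs1, e1⟩, s2, hs2, e2⟩ := h1
    refine ⟨T ∪ (Finset.univ.image b ∪ ({s1, s2} ∪ Finset.univ.biUnion fun i =>
      (C i).support.image fun j => (C i).coeff j)),
      fun K E _ _ _ F' ε t' ht' hT' hF a' l' ha hl => ?_⟩
    have hTT : ∀ z ∈ T, ∃ z', ε z' = z := fun z hz =>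
      hT' z (Finset.mem_union_left _ hz)
    have hbb : ∀ i, ∃ z', ε z' = b i := fun i =>
      hT' _ (Finset.mem_union_right _ (Finset.mem_union_left _
        (Finset.mem_image_of_mem _ (Finset.mem_univ i))))
    choose b' hb' using hbb
    obtain ⟨s1', hs1'⟩ := hT' s1 (Finset.mem_union_right _ (Finset.mem_union_right _
      (Finset.mem_union_left _ (by simp))))
    obtain ⟨s2', hs2'⟩ := hT' s2 (Finset.mem_union_right _ (Finset.mem_union_right _
      (Finset.mem_union_left _ (by simp))))
    have hCC : ∀ i j, ∃ z', ε z' = (C i).coeff j := by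
      intro i j
      by_cases h : (C i).coeff j = 0
      · exact ⟨0, by rw [map_zero, h]⟩
      · exact hT' _ (Finset.mem_union_right _ (Finset.mem_union_right _
          (Finset.mem_union_right _ (Finset.mem_biUnion.2 ⟨i, Finset.mem_univ _,
            Finset.mem_image.2 ⟨j, Polynomial.mem_support_iff.2 h, rfl⟩⟩))))
    choose C' hC' using fun i => lift_poly ε (C i) (hCC i)
    have hcoeff : ∀ i j, ε ((C' i).coeff j) = (C i).coeff j := by
      intro i j
      rw [← hC', Polynomial.coeff_map]
    refine Relation.ReflTransGen.head ?_ (hT K E F' ε t' ht' hTT hF b' l' hb' hl)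
    refine ⟨?_, ?_, D, C', ?_, ?_, ⟨s1', ?_, ?_⟩, s2', ?_, ?_⟩
    · rintro rfl
      apply ha0
      funext i
      rw [← ha, Pi.zero_apply, map_zero, Pi.zero_apply]
    · rintro rfl
      apply hb0
      funext i
      rw [← hb', Pi.zero_apply, map_zero, Pi.zero_apply]
    · intro i
      have h2 := hD i
      rw [← hC', Polynomial.natDegree_map] at h2
      exact h2
    · apply Polynomial.map_injective ε ε.injective
      rw [hF, Polynomial.map_zero, ← hC]
      congr 2
      funext i
      have h2 := pt_map (m := m) (fun j => Polynomial.C (t' j)) C' (Polynomial.mapRingHom ε) i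
      rw [Polynomial.coe_mapRingHom] at h2
      rw [h2]
      congr 1
      · funext j
        rw [Polynomial.map_C, ht']
      · funext i
        exact hC' i
    · rintro rfl
      exact hs1 (by rw [← hs1', map_zero])
    · intro i
      apply ε.injective
      rw [hcoeff, e1, map_mul, hs1', ha]
    · rintro rfl
      exact hs2 (by rw [← hs2', map_zero])
    · intro i
      apply ε.injective
      rw [hcoeff, e2, map_mul, hs2', hb']

end

end Pool.Agent.H900.LF
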