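import Pool.Agent.H900.LF.Sp
import Pool.Graph.R_pool_sql_team_seeded_1e53cb71.Helper93K9.PAR.All

/-! # The special cubic form -/

set_option autoImplicit false
set_option linter.unusedSectionVars false

namespace Pool.Agent.H900.LF

open MvPolynomial

noncomputable section

variable {p q m : ℕ}

/-- the number of variables is `NN p q m + 2` -/
abbrev NN (p q m : ℕ) : ℕ := p + 3 + m + (q + 1)

/-- the variables `x` -/
def ix (p q m : ℕ) (i : Fin (p + 3)) : Fin (NN p q m + 2) :=
  (Fin.castAdd (q + 3) (Fin.castAdd m i) : Fin (p + 3 + m + (q + 3)))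

/-- the additional variables -/
def ir (p q m : ℕ) (l : Fin m) : Fin (NN p q m + 2) :=
  (Fin.castAdd (q + 3) (Fin.natAdd (p + 3) l) : Fin (p + 3 + m + (q + 3)))

/-- the variables `z` -/
def iz (p q m : ℕ) (j : Fin (q + 3)) : Fin (NN p q m + 2) :=
  (Fin.natAdd (p + 3 + m) j : Fin (p + 3 + m + (q + 3)))

theorem ix_val (i : Fin (p + 3)) : (ix p q m i).val = i.val := rfl

theorem ir_val (l : Fin m) : (ir p q m l).val = p + 3 + l.val := rfl

theorem iz_val (j : Fin (q + 3)) : (iz p q m j).val = p + 3 + m + j.val := rfl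

theorem ix_inj : Function.Injective (ix p q m) := by
  intro i j h
  have h1 := congrArg Fin.val h
  rw [ix_val, ix_val] at h1
  exact Fin.ext h1

theorem iz_inj : Function.Injective (iz p q m) := by
  intro i j h
  have h1 := congrArg Fin.val h
  rw [iz_val, iz_val] at h1
  exact Fin.ext (by omega)

theorem ix_ne_iz (i : Fin (p + 3)) (j : Fin (q + 3)) : ix p q m i ≠ iz p q m j := by
  intro h
  have h1 := congrArg Fin.val h
  rw [ix_val, iz_val] at h1
  omega

theorem ix_ne_ir (i : Fin (p + 3)) (j : Fin m) : ix p q m i ≠ ir p q m j := by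
  intro h
  have h1 := congrArg Fin.val h
  rw [ix_val, ir_val] at h1
  omega

theorem ir_ne_iz (i : Fin m) (j : Fin (q + 3)) : ir p q m i ≠ iz p q m j := by
  intro h
  have h1 := congrArg Fin.val h
  rw [ir_val, iz_val] at h1
  omega

theorem cases_idx (a : Fin (NN p q m + 2)) :
    (∃ i, a = ix p q m i) ∨ (∃ l, a = ir p q m l) ∨ ∃ j, a = iz p q m j := by
  by_cases h1 : a.val < p + 3
  · exact Or.inl ⟨⟨a.val, h1⟩, Fin.ext rfl⟩
  by_cases h2 : a.val < p + 3 + m
  · refine Or.inr (Or.inl ⟨⟨a.val - (p + 3), by omega⟩, Fin.ext ?_⟩)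
    rw [ir_val]
    simp only
    omega
  · refine Or.inr (Or.inr ⟨⟨a.val - (p + 3 + m), ?_⟩, Fin.ext ?_⟩)
    · have := a.isLt
      unfold NN at this
      omega
    · rw [iz_val]
      simp only
      omega

theorem ix_zero : ix p q m 0 = 0 := rfl

theorem iz_last : iz p q m (LL q) = Fin.last (NN p q m + 1) := rfl

/-- the special cubic form -/
def Fsp {k : Type} [CommRing k] (m : ℕ) (v : Fin (p + 1) → Fin (q + 1)) :
    MvPolynomial (Fin (NN p q m + 2)) k :=
  ∑ i, X (iz p q m (rho v i)) * X (ix p q m i) ^ 2 +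
    (X (iz p q m 0) * X (iz p q m 1) * X (iz p q m (LL q)) - X (iz p q m (LL q)) ^ 3)

theorem aeval_Fsp {k R : Type} [CommRing k] [CommRing R] [Algebra k R]
    (v : Fin (p + 1) → Fin (q + 1)) (x : Fin (NN p q m + 2) → R) :
    aeval x (Fsp m v : MvPolynomial (Fin (NN p q m + 2)) k) =
      ∑ i, x (iz p q m (rho v i)) * x (ix p q m i) ^ 2 +
      (x (iz p q m 0) * x (iz p q m 1) * x (iz p q m (LL q)) - x (iz p q m (LL q)) ^ 3) := by
  unfold Fsp
  simp only [map_add, map_sub, map_sum, map_mul, map_pow, aeval_X]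

theorem Fsp_map {k k' : Type} [CommRing k] [CommRing k'] (f : k →+* k')
    (v : Fin (p + 1) → Fin (q + 1)) : map f (Fsp m v) = Fsp m v := by
  unfold Fsp
  simp only [map_add, map_sub, map_sum, map_mul, map_pow, map_X]

theorem Fsp_hom {k : Type} [CommRing k] (v : Fin (p + 1) → Fin (q + 1)) :
    (Fsp m v : MvPolynomial (Fin (NN p q m + 2)) k).IsHomogeneous 3 := by
  unfold Fsp
  have hX : ∀ a : Fin (NN p q m + 2), (X a : MvPolynomial _ k).IsHomogeneous 1 :=
    fun a => isHomogeneous_X k a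
  refine IsHomogeneous.add (IsHomogeneous.sum _ _ _ fun i _ => ?_) (IsHomogeneous.sub ?_ ?_)
  · exact (hX _).mul ((hX _).pow 2)
  · exact ((hX _).mul (hX _)).mul (hX _)
  · exact (hX _).pow 3

theorem Fsp_last {k : Type} [Field k] (v : Fin (p + 1) → Fin (q + 1)) :
    coeff (Finsupp.single (Fin.last (NN p q m + 1)) 3)
      (Fsp m v : MvPolynomial (Fin (NN p q m + 2)) k) ≠ 0 := by
  classical
  have h1 : aeval (Pi.single (Fin.last (NN p q m + 1)) 1 : Fin (NN p q m + 2) → k)
      (Fsp m v : MvPolynomial (Fin (NN p q m + 2)) k) =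
      coeff (Finsupp.single (Fin.last (NN p q m + 1)) 3) (Fsp m v) :=
    Pool.Agent.Helper93K9.PAR.TrL.aeval_single (Fsp_hom v) _ _ (Pi.single_eq_same _ _)
      fun i hi => Pi.single_eq_of_ne hi _
  rw [← h1, aeval_Fsp, ← iz_last, Pi.single_eq_same, Finset.sum_eq_zero, Pi.single_eq_of_ne]
  · simp
  · intro h
    exact absurd (congrArg Fin.val (iz_inj h)) (by simp)
  · intro i _
    rw [Pi.single_eq_of_ne (ix_ne_iz i (LL q))]
    ring

theorem relPrime_of_eval {σ k : Type} [Field k] {α β : MvPolynomial σ k} (hα : Irreducible α)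
    (z : σ → k) (h0 : eval z α = 0) (h1 : eval z β ≠ 0) : IsRelPrime α β := by
  rw [hα.isRelPrime_iff_not_dvd]
  rintro ⟨γ, rfl⟩
  rw [map_mul, h0, zero_mul] at h1
  exact h1 rfl

theorem notMem_vars {σ k : Type} [Field k] {α : MvPolynomial σ k} {i : σ}
    (h : α ∈ supported k ({i}ᶜ : Set σ)) : i ∉ α.vars := by
  intro hi
  rw [mem_supported] at h
  exact h (Finset.mem_coe.2 hi) rfl

theorem Fsp_irr {k : Type} [Field k] (v : Fin (p + 1) → Fin (q + 1)) :
    Irreducible (Fsp m v : MvPolynomial (Fin (NN p q m + 2)) k) := by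
  classical
  set z0 := iz p q m 0 with hz0
  set z1 := iz p q m 1 with hz1
  set zL := iz p q m (LL q) with hzL
  set x0 := ix p q m 0 with hx0
  set x1 := ix p q m 1 with hx1
  have h01 : z0 ≠ z1 := fun h => absurd (congrArg Fin.val (iz_inj h)) (by simp)
  have h0L : z0 ≠ zL := fun h => absurd (congrArg Fin.val (iz_inj h)) (by simp)
  have h1L : z1 ≠ zL := fun h => absurd (congrArg Fin.val (iz_inj h)) (by
    simp only [Fin.val_last]
    rw [Fin.val_one]
    omega)
  have hx1z : ∀ j, x1 ≠ iz p q m j := fun j => ix_ne_iz 1 j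
  have hXm : ∀ (i j : Fin (NN p q m + 2)), j ≠ i →
      (X j : MvPolynomial (Fin (NN p q m + 2)) k) ∈ supported k ({i}ᶜ : Set _) := by
    intro i j h
    exact (X_mem_supported (R := k)).2 h
  -- the leading coefficient
  set α : MvPolynomial (Fin (NN p q m + 2)) k := X zL * X z0 + X x1 ^ 2 with hα
  have hαirr : Irreducible α := by
    refine irreducible_mul_X_add _ _ z0 (X_ne_zero _) (notMem_vars (hXm _ _ h0L.symm))
      (notMem_vars (pow_mem (hXm _ _ (hx1z 0)) 2)) ?_
    refine relPrime_of_eval X_prime.irreducible (Function.update 1 zL 0) ?_ ?_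
    · rw [eval_X, Function.update_self]
    · rw [map_pow, eval_X, Function.update_of_ne (hx1z _)]
      simp
  set β : MvPolynomial (Fin (NN p q m + 2)) k := X z0 * X x0 ^ 2 +
    ∑ a, X (iz p q m (v a).succ.succ) * X (ix p q m a.succ.succ) ^ 2 - X zL ^ 3 with hβ
  have hF : (Fsp m v : MvPolynomial (Fin (NN p q m + 2)) k) = α * X z1 + β := by
    unfold Fsp
    rw [Fin.sum_univ_succ, Fin.sum_univ_succ]
    have e0 : rho v 0 = 0 := rfl
    have e1 : rho v (Fin.succ 0) = 1 := rfl
    have e2 : ∀ a : Fin (p + 1), rho v a.succ.succ = (v a).succ.succ := fun a => rfl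
    have e3 : (Fin.succ 0 : Fin (p + 3)) = 1 := rfl
    simp only [e0, e1, e2]
    rw [hα, hβ, hz0, hz1, hzL, hx0, hx1, e3]
    ring
  rw [hF]
  refine irreducible_mul_X_add _ _ z1 hαirr.ne_zero ?_ ?_ ?_
  · refine notMem_vars (add_mem (mul_mem (hXm _ _ h1L.symm) (hXm _ _ h01)) (pow_mem ?_ 2))
    exact hXm _ _ (hx1z 1)
  · refine notMem_vars (sub_mem (add_mem (mul_mem (hXm _ _ h01) (pow_mem (hXm _ _ (ix_ne_iz 0 1)) 2))
      (sum_mem fun a _ => mul_mem (hXm _ _ ?_) (pow_mem (hXm _ _ (ix_ne_iz _ 1)) 2)))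
      (pow_mem (hXm _ _ h1L.symm) 3))
    intro h
    exact absurd (congrArg Fin.val (iz_inj h)) (by simp)
  · refine relPrime_of_eval hαirr (fun i => if i = zL then 1 else 0) ?_ ?_
    · rw [hα, map_add, map_mul, map_pow, eval_X, eval_X, eval_X, if_neg h0L, if_neg (hx1z _)]
      ring
    · rw [hβ, map_sub, map_add, map_sum, map_mul, eval_X, if_neg h0L, map_pow (eval _) (X zL),
        eval_X, if_pos rfl, Finset.sum_eq_zero]
      · simp
      · intro a _
        rw [map_mul, map_pow, eval_X, eval_X,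
          if_neg (ix_ne_iz _ _)]
        ring

end

end Pool.Agent.H900.LF
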