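import Pool.Agent.H900.LF.Tf

/-! # Generic points of the generic fibre -/

set_option autoImplicit false
set_option linter.unusedSectionVars false

namespace Pool.Agent.H900.LF

open MvPolynomial FF Module Pool.Agent.Helper93K9.PAR

noncomputable section

/-- the field of rational functions in `s` variables -/
abbrev Kt (s : ℕ) : Type := FractionRing (MvPolynomial (Fin s) ℂ)

/-- the point `(1, t_1, …, t_s)` -/
def tj (s : ℕ) : Fin (s + 1) → Kt s :=
  Fin.cons 1 fun j => algebraMap (MvPolynomial (Fin s) ℂ) (Kt s) (X j)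

/-- the equation of the generic fibre -/
def fibre {n s : ℕ} (F : MvPolynomial (Fin (n + 1 + (s + 1))) ℂ) :
    MvPolynomial (Fin (n + 2)) (Kt s) :=
  aeval (Fin.append (fun i : Fin (n + 1) => X i.castSucc)
    (fun j : Fin (s + 1) => C (tj s j) * X (Fin.last (n + 1)))) F

/-- two points joined by a rational curve -/
def Joined {K M : Type} [Field K] [Field M] [Algebra K M] {r : ℕ} (f : MvPolynomial (Fin r) K)
    (u u' : Fin r → M) : Prop :=
  u ≠ 0 ∧ u' ≠ 0 ∧ ∃ (D : ℕ) (C : Fin r → Polynomial M), (∀ i, (C i).natDegree ≤ D) ∧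
    aeval C f = 0 ∧ (∃ a : M, a ≠ 0 ∧ ∀ i, (C i).coeff 0 = a * u i) ∧
    ∃ b : M, b ≠ 0 ∧ ∀ i, (C i).coeff D = b * u' i

theorem aeval_fibre {n s : ℕ} (F : MvPolynomial (Fin (n + 1 + (s + 1))) ℂ) {A : Type}
    [CommRing A] [Algebra (Kt s) A] [Algebra ℂ A] [IsScalarTower ℂ (Kt s) A]
    (y : Fin (n + 2) → A) : aeval y (fibre F) =
      aeval (Fin.append (fun i : Fin (n + 1) => y i.castSucc)
        (fun j : Fin (s + 1) => algebraMap (Kt s) A (tj s j) * y (Fin.last (n + 1)))) F := by
  have h1 := comp_aeval_apply (Fin.append (fun i : Fin (n + 1) => X i.castSucc)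
    (fun j : Fin (s + 1) => C (tj s j) * X (Fin.last (n + 1))) :
      Fin (n + 1 + (s + 1)) → MvPolynomial (Fin (n + 2)) (Kt s))
    ((aeval y : MvPolynomial (Fin (n + 2)) (Kt s) →ₐ[Kt s] A).restrictScalars ℂ) F
  have h2 : aeval y (fibre F) = ((aeval y :
    MvPolynomial (Fin (n + 2)) (Kt s) →ₐ[Kt s] A).restrictScalars ℂ)
      (aeval (Fin.append (fun i : Fin (n + 1) => X i.castSucc)
    (fun j : Fin (s + 1) => C (tj s j) * X (Fin.last (n + 1)))) F) := rfl
  rw [h2, h1]
  congr 2
  funext a
  refine Fin.addCases (fun i => ?_) (fun j => ?_) a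
  · rw [Fin.append_left, Fin.append_left]
    exact aeval_X _ _
  · rw [Fin.append_right, Fin.append_right]
    show aeval y _ = _
    rw [map_mul, aeval_C, aeval_X]

theorem hom_smul {σ k A : Type} [CommRing k] [CommRing A] [Algebra k A] {F : MvPolynomial σ k}
    {d : ℕ} (hF : F.IsHomogeneous d) (y : σ → A) (u : A) :
    aeval (fun i => u * y i) F = u ^ d * aeval y F := by
  rw [aeval_def, aeval_def, eval₂_eq, eval₂_eq, Finset.mul_sum]
  refine Finset.sum_congr rfl fun m hm => ?_
  have h1 : ∑ i ∈ m.support, m i = d := by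
    have := hF (mem_support_iff.1 hm)
    rw [Finsupp.weight_apply] at this
    simpa [Finsupp.sum] using this
  have h2 : ∏ i ∈ m.support, (u * y i) ^ m i = (∏ i ∈ m.support, y i ^ m i) * u ^ d := by
    rw [← h1, ← Finset.prod_pow_eq_pow_sum, ← Finset.prod_mul_distrib]
    exact Finset.prod_congr rfl fun i _ => by rw [mul_pow, mul_comm]
  rw [h2]
  ring

theorem alg_of_gens {k W : Type} [Field k] [Field W] [Algebra k W] (A : IntermediateField k W)
    (S : Set W) (hS : ∀ z ∈ S, IsAlgebraic A z)
    (hW : ∀ z : W, IsAlgebraic (IntermediateField.adjoin k S) z) (z : W) : IsAlgebraic A z :=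
  Pool.Agent.X328.FD.alg_trans (le_sup_left : A ≤ A ⊔ IntermediateField.adjoin k S)
    (Pool.Agent.X328.FD.alg_sup hS)
    (Pool.Agent.X328.FD.alg_mono (le_sup_right :
      IntermediateField.adjoin k S ≤ A ⊔ IntermediateField.adjoin k S) (hW z))

theorem alg_mem {k W : Type} [Field k] [Field W] [Algebra k W] {A : IntermediateField k W}
    {z : W} (hz : z ∈ A) : IsAlgebraic A z := by
  have h : z = algebraMap A W ⟨z, hz⟩ := rfl
  rw [h]
  exact isAlgebraic_algebraMap _

section gp

variable {p q m : ℕ} {M : Type} [Field M] [Algebra ℂ M]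

/-- the elements which generate the field -/
def gens (g : Fin (p + 3 + 1) → M) (R : Fin m → M) (T : Fin (q + 3) → M) : Set M :=
  ({z | ∃ i j, z = g i / g j} ∪ Set.range R) ∪ Set.range T

/-- all coordinates of a generic point are nonzero -/
theorem gp_ne {F : MvPolynomial (Fin (p + 3 + (q + 3))) ℂ} (hF : F.IsHomogeneous 3)
    (hco : ∀ l, coeff (Finsupp.single l 3) F ≠ 0) {g : Fin (p + 3 + 1) → M} {R : Fin m → M}
    {T : Fin (q + 3) → M} (hT : T 0 = 1) (hg0 : g ≠ 0)
    (hg : aeval (Fin.append (fun i : Fin (p + 3) => g i.castSucc)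
      (fun j : Fin (q + 3) => T j * g (Fin.last (p + 3)))) F = 0)
    (halg : ∀ z : M, IsAlgebraic (IntermediateField.adjoin ℂ (gens g R T)) z)
    {ι' : Type} {y : ι' → M} (hy : AlgebraicIndependent ℂ y)
    (hc : ((p + 2 + m + (q + 2) : ℕ) : Cardinal) ≤ Cardinal.mk ι') (a : Fin (p + 3 + 1)) :
    g a ≠ 0 := by
  classical
  intro ha
  obtain ⟨i1, hi1⟩ := Function.ne_iff.1 hg0
  rw [Pi.zero_apply] at hi1
  have hai : a ≠ i1 := by
    rintro rfl
    exact hi1 ha
  let I := {i : Fin (p + 3 + 1) // i ≠ i1 ∧ i ≠ a}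
  let b : I ⊕ (Fin m ⊕ Fin (q + 2)) → M :=
    Sum.elim (fun i => g i.1 / g i1) (Sum.elim R fun j => T j.succ)
  have hcard : Fintype.card I = p + 2 := by
    rw [Fintype.card_subtype]
    have h1 : (Finset.univ.filter fun i : Fin (p + 3 + 1) => i ≠ i1 ∧ i ≠ a) =
        (Finset.univ.erase i1).erase a := by
      ext i
      simp only [Finset.mem_filter, Finset.mem_univ, true_and, Finset.mem_erase, ne_eq,
        and_true]
      tauto
    rw [h1, Finset.card_erase_of_mem (Finset.mem_erase.2 ⟨hai, Finset.mem_univ _⟩),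
      Finset.card_erase_of_mem (Finset.mem_univ _), Finset.card_univ, Fintype.card_fin]
    omega
  have hbi : AlgebraicIndependent ℂ b := by
    refine Pool.Agent.X328.FD.indep_count (y := y) (alg_of_gens _ (gens g R T) ?_ halg) hy ?_
    · have hb : ∀ s, b s ∈ IntermediateField.adjoin ℂ (Set.range b) :=
        fun s => IntermediateField.subset_adjoin _ _ ⟨s, rfl⟩
      have hgi : ∀ i, g i / g i1 ∈ IntermediateField.adjoin ℂ (Set.range b) := by
        intro i
        by_cases h1 : i = i1
        · rw [h1, div_self hi1]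
          exact one_mem _
        by_cases h2 : i = a
        · rw [h2, ha, zero_div]
          exact zero_mem _
        · exact hb (Sum.inl ⟨i, h1, h2⟩)
      intro z hz
      apply alg_mem
      rcases hz with (⟨i, j, rfl⟩ | ⟨l, rfl⟩) | ⟨j, rfl⟩
      · rw [← div_div_div_cancel_right₀ hi1]
        exact div_mem (hgi i) (hgi j)
      · exact hb (Sum.inr (Sum.inl l))
      · refine Fin.cases ?_ (fun j => ?_) j
        · rw [hT]
          exact one_mem _
        · exact hb (Sum.inr (Sum.inr j))
    · refine le_trans (le_of_eq ?_) hc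
      rw [Cardinal.mk_sum, Cardinal.mk_sum, Cardinal.mk_fintype I, hcard]
      simp only [Cardinal.lift_id, Cardinal.mk_fin]
      push_cast
      ring
  -- the relation
  let pos : Fin (p + 3 + 1) → MvPolynomial (I ⊕ (Fin m ⊕ Fin (q + 2))) ℂ := fun i =>
    if h1 : i = i1 then 1 else if h2 : i = a then 0 else X (Sum.inl ⟨i, h1, h2⟩)
  let tv : Fin (q + 3) → MvPolynomial (I ⊕ (Fin m ⊕ Fin (q + 2))) ℂ :=
    Fin.cons 1 fun j => X (Sum.inr (Sum.inr j))
  let P : MvPolynomial (I ⊕ (Fin m ⊕ Fin (q + 2))) ℂ :=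
    aeval (Fin.append (fun i : Fin (p + 3) => pos i.castSucc)
      (fun j : Fin (q + 3) => tv j * pos (Fin.last (p + 3)))) F
  have hpos : ∀ i, aeval b (pos i) = (g i1)⁻¹ * g i := by
    intro i
    by_cases h1 : i = i1
    · have h2 : pos i = 1 := dif_pos h1
      rw [h2, map_one, h1, inv_mul_cancel₀ hi1]
    by_cases h2 : i = a
    · have h3 : pos i = 0 := (dif_neg h1).trans (dif_pos h2)
      rw [h3, map_zero, h2, ha, mul_zero]
    · have h3 : pos i = X (Sum.inl ⟨i, h1, h2⟩) := (dif_neg h1).trans (dif_neg h2)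
      rw [h3, aeval_X, inv_mul_eq_div]
      rfl
  have htv : ∀ j, aeval b (tv j) = T j := by
    intro j
    refine Fin.cases ?_ (fun j => ?_) j
    · show aeval b (1 : MvPolynomial _ ℂ) = _
      rw [map_one, hT]
    · show aeval b (X (Sum.inr (Sum.inr j)) : MvPolynomial _ ℂ) = _
      rw [aeval_X]
      rfl
  have hP0 : aeval b P = 0 := by
    have h1 := comp_aeval_apply (Fin.append (fun i : Fin (p + 3) => pos i.castSucc)
      (fun j : Fin (q + 3) => tv j * pos (Fin.last (p + 3)))) (aeval b) F
    rw [show P = aeval (Fin.append (fun i : Fin (p + 3) => pos i.castSucc)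
      (fun j : Fin (q + 3) => tv j * pos (Fin.last (p + 3)))) F from rfl, h1]
    have h2 : (fun i => aeval b (Fin.append (fun i : Fin (p + 3) => pos i.castSucc)
      (fun j : Fin (q + 3) => tv j * pos (Fin.last (p + 3))) i)) =
      fun i => (g i1)⁻¹ * (Fin.append (fun i : Fin (p + 3) => g i.castSucc)
      (fun j : Fin (q + 3) => T j * g (Fin.last (p + 3))) i) := by
      funext i
      refine Fin.addCases (fun i => ?_) (fun j => ?_) i
      · rw [Fin.append_left, Fin.append_left, hpos]
      · rw [Fin.append_right, Fin.append_right, map_mul, hpos, htv]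
        ring
    rw [h2, hom_smul hF, hg, mul_zero]
  have hP1 : P = 0 := (algebraicIndependent_iff.1 hbi) P hP0
  have hP2 : aeval (0 : I ⊕ (Fin m ⊕ Fin (q + 2)) → ℂ) P = 0 := by rw [hP1, map_zero]
  have h1 := comp_aeval_apply (Fin.append (fun i : Fin (p + 3) => pos i.castSucc)
      (fun j : Fin (q + 3) => tv j * pos (Fin.last (p + 3))))
      (aeval (0 : I ⊕ (Fin m ⊕ Fin (q + 2)) → ℂ)) F
  rw [show P = aeval (Fin.append (fun i : Fin (p + 3) => pos i.castSucc)
      (fun j : Fin (q + 3) => tv j * pos (Fin.last (p + 3)))) F from rfl, h1] at hP2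
  have hpos0 : ∀ i, aeval (0 : I ⊕ (Fin m ⊕ Fin (q + 2)) → ℂ) (pos i) =
      if i = i1 then 1 else 0 := by
    intro i
    by_cases h1 : i = i1
    · have h2 : pos i = 1 := dif_pos h1
      rw [h2, map_one, if_pos h1]
    by_cases h2 : i = a
    · have h3 : pos i = 0 := (dif_neg h1).trans (dif_pos h2)
      rw [h3, map_zero, if_neg h1]
    · have h3 : pos i = X (Sum.inl ⟨i, h1, h2⟩) := (dif_neg h1).trans (dif_neg h2)
      rw [h3, aeval_X, if_neg h1, Pi.zero_apply]
  have htv0 : ∀ j, aeval (0 : I ⊕ (Fin m ⊕ Fin (q + 2)) → ℂ) (tv j) =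
      if j = 0 then 1 else 0 := by
    intro j
    refine Fin.cases ?_ (fun j => ?_) j
    · show aeval _ (1 : MvPolynomial _ ℂ) = _
      rw [map_one, if_pos rfl]
    · show aeval _ (X (Sum.inr (Sum.inr j)) : MvPolynomial _ ℂ) = _
      rw [aeval_X, if_neg (Fin.succ_ne_zero j), Pi.zero_apply]
  have hlast : ∃ l : Fin (p + 3 + (q + 3)),
      (∀ i : Fin (p + 3), (Fin.castAdd (q + 3) i = l ↔ i.castSucc = i1)) ∧
      ∀ j : Fin (q + 3), (Fin.natAdd (p + 3) j = l ↔ Fin.last (p + 3) = i1 ∧ j = 0) := by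
    refine Fin.lastCases (motive := fun i1 : Fin (p + 3 + 1) => ∃ l : Fin (p + 3 + (q + 3)),
      (∀ i : Fin (p + 3), (Fin.castAdd (q + 3) i = l ↔ i.castSucc = i1)) ∧
      ∀ j : Fin (q + 3), (Fin.natAdd (p + 3) j = l ↔ Fin.last (p + 3) = i1 ∧ j = 0))
      ?_ (fun i' => ?_) i1
    · refine ⟨Fin.natAdd (p + 3) 0, fun i => ?_, fun j => ?_⟩
      · constructor
        · intro h
          have := congrArg Fin.val h
          simp only [Fin.val_castAdd, Fin.val_natAdd] at this
          omega
        · intro h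
          exact absurd h (Fin.castSucc_ne_last i)
      · constructor
        · intro h
          refine ⟨rfl, ?_⟩
          have := congrArg Fin.val h
          simp only [Fin.val_natAdd] at this
          exact Fin.ext (by simpa using this)
        · rintro ⟨-, rfl⟩
          rfl
    · refine ⟨Fin.castAdd (q + 3) i', fun i => ?_, fun j => ?_⟩
      · constructor
        · intro h
          have := congrArg Fin.val h
          simp only [Fin.val_castAdd] at this
          rw [Fin.ext this]
        · intro h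
          rw [Fin.castSucc_injective _ h]
      · constructor
        · intro h
          have := congrArg Fin.val h
          simp only [Fin.val_castAdd, Fin.val_natAdd] at this
          omega
        · rintro ⟨h, -⟩
          exact absurd h.symm (Fin.castSucc_ne_last i')
  obtain ⟨l, hl1, hl2⟩ := hlast
  have hsingle := TrL.aeval_single (R := ℂ) hF l (fun i => aeval (0 : I ⊕ (Fin m ⊕ Fin (q + 2)) → ℂ)
      (Fin.append (fun i : Fin (p + 3) => pos i.castSucc)
      (fun j : Fin (q + 3) => tv j * pos (Fin.last (p + 3))) i)) ?_ ?_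
  · rw [hsingle] at hP2
    exact hco l hP2
  · revert hl1 hl2
    refine Fin.addCases (fun i => ?_) (fun j => ?_) l
    · intro hl1 _
      simp only [Fin.append_left]
      rw [hpos0, if_pos ((hl1 i).1 rfl)]
    · intro _ hl2
      simp only [Fin.append_right]
      obtain ⟨h3, h4⟩ := (hl2 j).1 rfl
      rw [map_mul, hpos0, htv0, if_pos h3, if_pos h4, mul_one]
  · intro i
    refine Fin.addCases (fun i => ?_) (fun j => ?_) i
    · intro h
      simp only [Fin.append_left]
      rw [hpos0, if_neg fun h3 => h ((hl1 i).2 h3)]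
    · intro h
      simp only [Fin.append_right]
      rw [map_mul, hpos0, htv0]
      by_cases h3 : Fin.last (p + 3) = i1
      · by_cases h4 : j = 0
        · exact absurd ((hl2 j).2 ⟨h3, h4⟩) h
        · rw [if_neg h4, zero_mul]
      · rw [if_neg h3, mul_zero]

end gp

end

end Pool.Agent.H900.LF
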