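import Pool.Agent.H900.LF.Pt

/-! # Rational curves on the fibre respect the two components of the reduction -/

set_option autoImplicit false
set_option linter.unusedSectionVars false

namespace Pool.Agent.H900.LF

open MvPolynomial FF Pool.Agent.Helper93K9.PAR

noncomputable section

variable {p q m : ℕ}

/-- the points `u` and `u'` of the fibre over `t` are joined by a rational curve over `E` -/
def Lk {k E : Type} [Field k] [Field E] [Algebra k E] (F : MvPolynomial (Fin (NN p q m + 2)) k)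
    (t : Fin (q + 3) → E) (u u' : Fin (p + 3 + 1) → E) : Prop :=
  ∃ (D : ℕ) (C : Fin (p + 3 + 1) → Polynomial E), (∀ i, (C i).natDegree ≤ D) ∧
    aeval (pt m (fun j => Polynomial.C (t j)) C) F = 0 ∧
    (∃ a : E, a ≠ 0 ∧ ∀ i, (C i).coeff 0 = a * u i) ∧
    ∃ b : E, b ≠ 0 ∧ ∀ i, (C i).coeff D = b * u' i

section place

variable {Ω K E : Type} [Field Ω] [Field K] [Field E] [Algebra Ω K] [Algebra K E] [Algebra Ω E]
  [IsScalarTower Ω K E]

theorem aeval_fc' {A : Type} [CommRing A] [Algebra K A] [Algebra Ω A] [IsScalarTower Ω K A]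
    {r : ℕ} (F0 G : MvPolynomial (Fin r) Ω) (c : K) (z : Fin r → A) :
    aeval z (Fc F0 G c) = aeval z F0 + algebraMap K A c * aeval z G := by
  unfold Fc
  rw [map_add, map_mul, aeval_C, aeval_map_algebraMap, aeval_map_algebraMap]

/-- no point reduces to both components -/
def NE (w : Place Ω E) (v : Fin (p + 1) → Fin (q + 1)) (t : Fin (q + 3) → E) : Prop :=
  ∀ y : Fin (p + 3 + 1) → w.RF, y (Fin.last (p + 3)) = 0 →
    ∑ i, cq v (fun j => w.red (t j)) i * y i ^ 2 = 0 → y = 0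

variable {w : Place Ω E} {v : Fin (p + 1) → Fin (q + 1)} {t : Fin (q + 3) → E}

theorem red_g2 (ht : ∀ j, w.Reg (t j)) {y : Fin (p + 3 + 1) → E} (hy : ∀ i, w.Reg (y i)) :
    w.red (aeval y (g2 v t)) = ∑ i, cq v (fun j => w.red (t j)) i * w.red (y i) ^ 2 := by
  rw [aeval_g2]
  have hyr : ∀ i, w.Reg (y i ^ 2) := fun i =>
    (show _ ∈ w.O from pow_mem (show _ ∈ w.O from hy i) 2)
  have h1 := (red_sum w (fun i => algebraMap E E (cq v t i) * y i ^ 2)
    fun i => w.reg_mul (cq_reg w v ht i) (hyr i)).2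
  rw [h1]
  refine Finset.sum_congr rfl fun i _ => ?_
  have h2 : algebraMap E E (cq v t i) = cq v t i := rfl
  rw [h2, w.red_mul (cq_reg w v ht i) (hyr i), w.red_pow (hy i), red_cq w v ht]

theorem not_both (ht : ∀ j, w.Reg (t j)) (hne : NE w v t) {u : Fin (p + 3 + 1) → E} (hu : u ≠ 0)
    (h1 : RZ w (g1 p E) u) (h2 : RZ w (g2 v t) u) : False := by
  obtain ⟨i0, h0, hr⟩ := exists_norm w hu
  have e1 := rz_all w g1_hom (g1_reg w) h1 i0 hr
  have e2 := rz_all w (g2_hom v t) (g2_reg w v ht) h2 i0 hr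
  rw [aeval_g1] at e1
  rw [red_g2 ht hr] at e2
  have h3 := congrFun (hne (fun i => w.red (u i / u i0)) e1 e2) i0
  simp only [div_self h0, w.red_one, Pi.zero_apply] at h3
  exact one_ne_zero h3

theorem no_middle (ht : ∀ j, w.Reg (t j)) (hne : NE w v t) (y : Fin (p + 3 + 1) → E)
    (h1 : ∃ i, y i = 1) (hr : ∀ i, w.Reg (y i)) (e1 : w.red (aeval y (g1 p E)) = 0)
    (e2 : w.red (aeval y (g2 v t)) = 0) : False := by
  rw [aeval_g1] at e1
  rw [red_g2 ht hr] at e2
  obtain ⟨i0, h0⟩ := h1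
  have h3 := congrFun (hne (fun i => w.red (y i)) e1 e2) i0
  simp only [h0, w.red_one, Pi.zero_apply] at h3
  exact one_ne_zero h3

theorem rz_of_prop {r : ℕ} {g : MvPolynomial (Fin r) E} {u x : Fin r → E} {a : E} (ha : a ≠ 0)
    (hx : ∀ i, x i = a * u i) (h : ∃ i0, x i0 ≠ 0 ∧ (∀ i, w.Reg (x i / x i0)) ∧
      w.red (aeval (fun i => x i / x i0) g) = 0) : RZ w g u := by
  obtain ⟨i0, h0, hr, hz⟩ := h
  have e : ∀ i, x i / x i0 = u i / u i0 := fun i => by
    rw [hx, hx, mul_div_mul_left _ _ ha]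
  simp only [e] at hr hz
  refine ⟨i0, fun h => h0 ?_, hr, hz⟩
  rw [hx, h, mul_zero]

/-- **The two components.** -/
theorem lk_iff {c : K} (hc : 0 < w.ord (algebraMap K E c)) (ht : ∀ j, w.Reg (t j))
    (hne : NE w v t) {G : MvPolynomial (Fin (NN p q m + 2)) Ω} (hG : G.IsHomogeneous 3)
    {u u' : Fin (p + 3 + 1) → E} (hu : u ≠ 0) (hu' : u' ≠ 0)
    (h : Lk (Fc (Fsp m v) G c) t u u') : RZ w (g2 v t) u ↔ RZ w (g2 v t) u' := by
  obtain ⟨D, C, hD, hC, ⟨a, ha, h0⟩, ⟨b, hb, h1⟩⟩ := h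
  set τ : E := algebraMap K E c with hτ
  have hτr : w.Reg τ := Or.inr hc.le
  have hτ1 : w.red τ = 0 := (w.red_eq_zero_iff hτr).2 (Or.inr hc)
  have hid : Polynomial.C τ * aeval C (f3 t G) + aeval C (g1 p E) * aeval C (g2 v t) = 0 := by
    rw [← hC, aeval_fc', aeval_pt, aeval_f3, aeval_g2]
    have e1 : aeval C (g1 p E) = C (Fin.last (p + 3)) := by rw [g1, aeval_X]
    have e2 : algebraMap K (Polynomial E) c = Polynomial.C τ := by
      rw [hτ, IsScalarTower.algebraMap_apply K E (Polynomial E)]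
      rfl
    have e3 : ∀ i, algebraMap E (Polynomial E) (cq v t i) =
        cq v (fun j => Polynomial.C (t j)) i := by
      intro i
      refine Fin.lastCases ?_ (fun i => ?_) i
      · rw [cq_last, cq_last, map_sub, map_mul, map_mul, map_pow]
        rfl
      · rw [cq_castSucc, cq_castSucc]
        rfl
    rw [e1, e2, Finset.sum_congr rfl fun i _ => by rw [e3 i]]
    have e4 : (fun j => algebraMap E (Polynomial E) (t j)) = fun j => Polynomial.C (t j) := rfl
    rw [e4]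
    ring
  have hC0 : ∃ i, (C i).coeff 0 ≠ 0 := by
    obtain ⟨i, hi⟩ := Function.ne_iff.1 hu
    exact ⟨i, by rw [h0]; exact mul_ne_zero ha hi⟩
  have hC1 : ∃ i, (C i).coeff D ≠ 0 := by
    obtain ⟨i, hi⟩ := Function.ne_iff.1 hu'
    exact ⟨i, by rw [h1]; exact mul_ne_zero hb hi⟩
  have p1 := Pool.Agent.X328.FD.place_path w C hD (c1 := 1) (c2 := 2) g1_hom (g2_hom v t)
    (f3_hom t hG) (g1_reg w) (g2_reg w v ht) (f3_reg w ht G) τ ⟨hτr, hτ1⟩ hid hC0 hC1
  have p2 := Pool.Agent.X328.FD.place_path w C hD (c1 := 2) (c2 := 1) (g2_hom v t) g1_hom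
    (f3_hom t hG) (g2_reg w v ht) (g1_reg w) (f3_reg w ht G) τ ⟨hτr, hτ1⟩
    (by rw [mul_comm (aeval C (g2 v t))]; exact hid) hC0 hC1
  constructor
  · intro hq
    rcases p2 with h2 | h2 | ⟨y, h2, h3, h4, h5⟩
    · exact (not_both ht hne hu (rz_of_prop ha h0 h2) hq).elim
    · exact rz_of_prop hb h1 h2
    · exact (no_middle ht hne y h2 h3 h5 h4).elim
  · intro hq
    rcases p1 with h2 | h2 | ⟨y, h2, h3, h4, h5⟩
    · exact rz_of_prop ha h0 h2
    · exact (not_both ht hne hu' (rz_of_prop hb h1 h2) hq).elim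
    · exact (no_middle ht hne y h2 h3 h4 h5).elim

end place

end

end Pool.Agent.H900.LF
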