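import Pool.Agent.H900.LF.Gp

/-! # The main theorem for independent coefficients -/

set_option autoImplicit false
set_option linter.unusedSectionVars false

namespace Pool.Agent.H900.LF

open MvPolynomial FF Module Pool.Agent.Helper93K9.PAR

noncomputable section

section bx

variable {p q m : ℕ} {M : Type} [Field M] [Algebra ℂ M]

/-- the generic point of the cone over the hypersurface, in the big space -/
def bx (g : Fin (p + 3 + 1) → M) (R : Fin m → M) (T : Fin (q + 3) → M) :
    Fin (NN p q m + 2) → M :=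
  (Fin.append (Fin.append (fun i : Fin (p + 3) => g i.castSucc)
    (fun l : Fin m => R l * g (Fin.last (p + 3))))
    (fun j => T j * g (Fin.last (p + 3))) : Fin (p + 3 + m + (q + 3)) → M)

variable {g : Fin (p + 3 + 1) → M} {R : Fin m → M} {T : Fin (q + 3) → M}

theorem bx_ix (i : Fin (p + 3)) : bx g R T (ix p q m i) = g i.castSucc := by
  unfold bx ix
  rw [Fin.append_left, Fin.append_left]

theorem bx_ir (l : Fin m) : bx g R T (ir p q m l) = R l * g (Fin.last (p + 3)) := by
  unfold bx ir
  rw [Fin.append_left, Fin.append_right]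

theorem bx_iz (j : Fin (q + 3)) : bx g R T (iz p q m j) = T j * g (Fin.last (p + 3)) := by
  unfold bx iz
  rw [Fin.append_right]

theorem bx_aeval (F : MvPolynomial (Fin (p + 3 + (q + 3))) ℂ) :
    aeval (bx g R T) (rename (rr p q m) F) =
      aeval (Fin.append (fun i : Fin (p + 3) => g i.castSucc)
        (fun j : Fin (q + 3) => T j * g (Fin.last (p + 3)))) F := by
  rw [aeval_rename]
  congr 2
  funext a
  refine Fin.addCases (fun i => ?_) (fun j => ?_) a
  · rw [Function.comp_apply, rr, Fin.append_left, Fin.append_left, bx_ix]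
  · rw [Function.comp_apply, rr, Fin.append_right, Fin.append_right, bx_iz]

theorem tt_bx (hT : T 0 = 1) (hg : g (Fin.last (p + 3)) ≠ 0) : tt (bx g R T) = T := by
  funext j
  unfold tt
  rw [bx_iz, bx_iz, hT, one_mul, mul_div_cancel_right₀ _ hg]

theorem gens_bx (hT : T 0 = 1) (hg : g (Fin.last (p + 3)) ≠ 0) :
    IntermediateField.adjoin ℂ (gens g R T) = rf ℂ (bx g R T) := by
  have hz : bx g R T (iz p q m 0) = g (Fin.last (p + 3)) := by rw [bx_iz, hT, one_mul]
  apply le_antisymm
  · rw [IntermediateField.adjoin_le_iff]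
    have h1 : ∀ i, ∃ a, g i = bx g R T a := by
      intro i
      refine Fin.lastCases ?_ (fun i => ?_) i
      · exact ⟨iz p q m 0, hz.symm⟩
      · exact ⟨ix p q m i, (bx_ix i).symm⟩
    rintro _ ((⟨i, j, rfl⟩ | ⟨l, rfl⟩) | ⟨j, rfl⟩)
    · obtain ⟨a, ha⟩ := h1 i
      obtain ⟨b, hb⟩ := h1 j
      exact IntermediateField.subset_adjoin _ _ ⟨a, b, by rw [ha, hb]⟩
    · refine IntermediateField.subset_adjoin _ _ ⟨ir p q m l, iz p q m 0, ?_⟩
      rw [bx_ir, hz, mul_div_cancel_right₀ _ hg]
    · refine IntermediateField.subset_adjoin _ _ ⟨iz p q m j, iz p q m 0, ?_⟩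
      rw [bx_iz, hz, mul_div_cancel_right₀ _ hg]
  · have h3 : ∀ a, bx g R T a / g (Fin.last (p + 3)) ∈
        IntermediateField.adjoin ℂ (gens g R T) := by
      intro a
      rcases cases_idx a with ⟨i, rfl⟩ | ⟨l, rfl⟩ | ⟨j, rfl⟩
      · rw [bx_ix]
        exact IntermediateField.subset_adjoin _ _ (Or.inl (Or.inl ⟨_, _, rfl⟩))
      · rw [bx_ir, mul_div_cancel_right₀ _ hg]
        exact IntermediateField.subset_adjoin _ _ (Or.inl (Or.inr ⟨_, rfl⟩))
      · rw [bx_iz, mul_div_cancel_right₀ _ hg]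
        exact IntermediateField.subset_adjoin _ _ (Or.inr ⟨_, rfl⟩)
    rw [rf, IntermediateField.adjoin_le_iff]
    rintro _ ⟨i, j, rfl⟩
    rw [← div_div_div_cancel_right₀ hg]
    exact div_mem (h3 i) (h3 j)

end bx

/-- the last coordinate is algebraic over the others -/
theorem alg_last {n : ℕ} {k M : Type} [Field k] [Field M] [Algebra k M]
    {F : MvPolynomial (Fin (n + 2)) k} (hF : F.IsHomogeneous 3)
    (hc : coeff (Finsupp.single (Fin.last (n + 1)) 3) F ≠ 0) {x : Fin (n + 2) → M}
    (hx : aeval x F = 0) (hx0 : x 0 ≠ 0) :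
    IsAlgebraic (IntermediateField.adjoin k (Set.range (yx x))) (x (Fin.last (n + 1)) / x 0) := by
  have h1 := Cu.aeval_θ hF x hx0
  rw [hx] at h1
  have h2 := (mul_eq_zero.1 h1.symm).resolve_left (pow_ne_zero 3 hx0)
  have hmem : ∀ H : MvPolynomial (Fin n) k,
      aeval (yx x) H ∈ IntermediateField.adjoin k (Set.range (yx x)) := by
    intro H
    rw [aeval_def, eval₂_eq]
    have hb : ∀ s, yx x s ∈ IntermediateField.adjoin k (Set.range (yx x)) :=
      fun s => IntermediateField.subset_adjoin _ _ ⟨s, rfl⟩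
    exact sum_mem fun α _ => mul_mem
      ((IntermediateField.adjoin k (Set.range (yx x))).algebraMap_mem _)
      (prod_mem fun i _ => pow_mem (hb i) _)
  let ψ : MvPolynomial (Fin n) k →+* IntermediateField.adjoin k (Set.range (yx x)) :=
    (aeval (yx x) : MvPolynomial (Fin n) k →ₐ[k] M).toRingHom.codRestrict
      (IntermediateField.adjoin k (Set.range (yx x))) hmem
  refine ⟨(Cu.θ k n F).map ψ, ?_, ?_⟩
  · intro h
    have h3 := congrArg (fun P => Polynomial.coeff P 3) h
    simp only [Polynomial.coeff_map, Polynomial.coeff_zero, (Cu.θ_cubic hF).2] at h3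
    have h4 := congrArg Subtype.val h3
    have h5 : aeval (yx x) (C (coeff (Finsupp.single (Fin.last (n + 1)) 3) F) :
        MvPolynomial (Fin n) k) = 0 := h4
    rw [aeval_C, map_eq_zero] at h5
    exact hc h5
  · rw [Polynomial.aeval_def, Polynomial.eval₂_map]
    exact h2

variable {p q m : ℕ}

theorem last_rename {F : MvPolynomial (Fin (p + 3 + (q + 3))) ℂ}
    (hF : F.IsHomogeneous 3) (hco : ∀ l, coeff (Finsupp.single l 3) F ≠ 0) :
    coeff (Finsupp.single (Fin.last (NN p q m + 1)) 3) (rename (rr p q m) F) ≠ 0 := by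
  classical
  have hF' : (rename (rr p q m) F).IsHomogeneous 3 := rename_hom _ hF
  have h1 : aeval (Pi.single (Fin.last (NN p q m + 1)) 1 : Fin (NN p q m + 2) → ℂ)
      (rename (rr p q m) F) = coeff (Finsupp.single (Fin.last (NN p q m + 1)) 3)
        (rename (rr p q m) F) :=
    TrL.aeval_single hF' _ _ (Pi.single_eq_same _ _) fun i hi => Pi.single_eq_of_ne hi _
  have hr : rr p q m (Fin.natAdd (p + 3) (LL q)) = Fin.last (NN p q m + 1) := by
    rw [rr, Fin.append_right]
    rfl
  rw [← h1, aeval_rename]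
  have h2 := TrL.aeval_single (R := ℂ) hF (Fin.natAdd (p + 3) (LL q))
    ((Pi.single (Fin.last (NN p q m + 1)) 1 : Fin (NN p q m + 2) → ℂ) ∘ rr p q m) (by
      rw [Function.comp_apply, hr, Pi.single_eq_same]) (fun i hi => by
      rw [Function.comp_apply, Pi.single_eq_of_ne]
      intro h
      exact hi (rr_inj (h.trans hr.symm)))
  rw [h2]
  exact hco _

theorem irr_rename {F : MvPolynomial (Fin (p + 3 + (q + 3))) ℂ} (hirr : Irreducible F) :
    Irreducible (rename (rr p q m) F) := by
  have h1 : Prime F := hirr.prime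
  let e := Equiv.ofInjective (rr p q m) rr_inj
  have h2 : Prime (renameEquiv ℂ e F) := (MulEquiv.prime_iff (renameEquiv ℂ e)).2 h1
  have h3 : Prime (rename (Subtype.val : Set.range (rr p q m) → Fin (NN p q m + 2))
      (renameEquiv ℂ e F)) := (prime_rename_iff _).2 h2
  rw [renameEquiv_apply, rename_rename] at h3
  exact h3.irreducible

theorem bx_indep {M : Type} [Field M] [Algebra ℂ M]
    {F : MvPolynomial (Fin (p + 3 + (q + 3))) ℂ} (hF : F.IsHomogeneous 3)
    (hco : ∀ l, coeff (Finsupp.single l 3) F ≠ 0) {g : Fin (p + 3 + 1) → M} {R : Fin m → M}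
    {T : Fin (q + 3) → M} (hT : T 0 = 1) (hg0 : ∀ a, g a ≠ 0)
    (hg : aeval (Fin.append (fun i : Fin (p + 3) => g i.castSucc)
      (fun j : Fin (q + 3) => T j * g (Fin.last (p + 3)))) F = 0)
    (halg : ∀ z : M, IsAlgebraic (IntermediateField.adjoin ℂ (gens g R T)) z)
    {ι' : Type} {y : ι' → M} (hy : AlgebraicIndependent ℂ y)
    (hc : ((p + 2 + m + (q + 2) : ℕ) : Cardinal) ≤ Cardinal.mk ι') :
    AlgebraicIndependent ℂ (yx (bx g R T : Fin (NN p q m + 2) → M)) := by
  classical
  set x : Fin (NN p q m + 2) → M := bx g R T with hx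
  have hx0 : x 0 ≠ 0 := by
    have h1 : x 0 = g (Fin.castSucc 0) := bx_ix 0
    rw [h1]
    exact hg0 _
  have hF' : (rename (rr p q m) F).IsHomogeneous 3 := rename_hom _ hF
  have hxF : aeval x (rename (rr p q m) F) = 0 := by
    rw [hx, bx_aeval, hg]
  refine Pool.Agent.X328.FD.indep_count (y := y) (alg_of_gens _ {z | ∃ i j, z = x i / x j} ?_ ?_)
    hy ?_
  · have h1 : ∀ a, IsAlgebraic (IntermediateField.adjoin ℂ (Set.range (yx x))) (x a / x 0) := by
      refine TrL.cases3 (P := fun a => IsAlgebraic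
        (IntermediateField.adjoin ℂ (Set.range (yx x))) (x a / x 0)) ?_ ?_ ?_
      · rw [div_self hx0]
        exact isAlgebraic_one
      · intro i
        exact alg_mem (IntermediateField.subset_adjoin _ _ ⟨i, rfl⟩)
      · exact alg_last hF' (last_rename hF hco) hxF hx0
    rintro _ ⟨i, j, rfl⟩
    rw [← div_div_div_cancel_right₀ hx0]
    rw [div_eq_mul_inv]
    exact (h1 i).mul (h1 j).inv
  · have h1 := gens_bx (R := R) hT (hg0 (Fin.last (p + 3)))
    have h2 : IntermediateField.adjoin ℂ {z | ∃ i j, z = x i / x j} =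
        IntermediateField.adjoin ℂ (gens g R T) := h1.symm
    rw [h2]
    exact halg
  · refine le_trans (le_of_eq ?_) hc
    rw [Cardinal.mk_fin]
    congr 1
    unfold NN
    omega

/-- **The main theorem for independent coefficients.** -/
theorem main_aux (hpq : p ≤ q) {F : MvPolynomial (Fin (p + 3 + (q + 3))) ℂ}
    (hF : F.IsHomogeneous 3) (hirr : Irreducible F)
    (hind : AlgebraicIndependent ℚ
      (fun β : {β : Fin (p + 3 + (q + 3)) →₀ ℕ // β.degree = 3} => coeff β.1 F))
    {M : Type} [Field M] [Algebra (Kt (q + 2)) M] (g : Fin (p + 3 + 1) → M) (R : Fin m → M)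
    (hg0 : g ≠ 0) (hg : aeval g (fibre (n := p + 2) F) = 0) {ι' : Type} {y : ι' → M}
    (hy : AlgebraicIndependent (Kt (q + 2)) y)
    (hc : ((p + 2 + m : ℕ) : Cardinal) ≤ Cardinal.mk ι')
    (hodd : Odd (finrank (IntermediateField.adjoin (Kt (q + 2))
      ({z | ∃ i j, z = g i / g j} ∪ Set.range R)) M))
    (l : Fin (p + 3 + 1) → M) (hl : ∀ i, IsAlgebraic (Kt (q + 2)) (l i)) :
    ¬ Relation.ReflTransGen (Joined (fibre (n := p + 2) F)) g l := by
  classical
  intro hch
  let _ : Algebra ℂ M := ((algebraMap (Kt (q + 2)) M).comp (algebraMap ℂ (Kt (q + 2)))).toAlgebra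
  have _ : IsScalarTower ℂ (Kt (q + 2)) M := IsScalarTower.of_algebraMap_eq fun _ => rfl
  have hco : ∀ l, coeff (Finsupp.single l 3) F ≠ 0 := fun l =>
    hind.ne_zero ⟨Finsupp.single l 3, Finsupp.degree_single _ _⟩
  -- the base
  set T : Fin (q + 3) → M := fun j => algebraMap (Kt (q + 2)) M (tj (q + 2) j) with hTdef
  have hT : T 0 = 1 := by
    rw [hTdef]
    exact map_one _
  have hgF : aeval (Fin.append (fun i : Fin (p + 3) => g i.castSucc)
      (fun j : Fin (q + 3) => T j * g (Fin.last (p + 3)))) F = 0 := by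
    rw [← hg, aeval_fibre]
  set S : Set M := {z | ∃ i j, z = g i / g j} ∪ Set.range R with hS
  have htop : (IsScalarTower.toAlgHom ℂ (Kt (q + 2)) M).fieldRange =
      IntermediateField.adjoin ℂ (Set.range T) := by
    have h1 : IntermediateField.adjoin ℂ (Set.range (Pool.Agent.X328.FD.tf (q + 2))) = ⊤ :=
      Pool.Agent.X328.FD.tf_top
    rw [AlgHom.fieldRange_eq_map, ← h1, IntermediateField.adjoin_map]
    apply le_antisymm
    · rw [IntermediateField.adjoin_le_iff]
      rintro _ ⟨_, ⟨j, rfl⟩, rfl⟩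
      exact IntermediateField.subset_adjoin _ _ ⟨j.succ, rfl⟩
    · rw [IntermediateField.adjoin_le_iff]
      rintro _ ⟨j, rfl⟩
      refine Fin.cases ?_ (fun j => ?_) j
      · rw [hT]
        exact one_mem _
      · exact IntermediateField.subset_adjoin _ _ ⟨_, ⟨j, rfl⟩, rfl⟩
  have hres : (IntermediateField.adjoin (Kt (q + 2)) S).restrictScalars ℂ =
      IntermediateField.adjoin ℂ (gens g R T) := by
    rw [Pool.Agent.X328.FD.res_type, htop, sup_comm, ← IntermediateField.adjoin_union]
    rfl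
  have hodd' : Odd (finrank (IntermediateField.adjoin ℂ (gens g R T)) M) := by
    rw [← hres]
    exact hodd
  have halg : ∀ z : M, IsAlgebraic (IntermediateField.adjoin ℂ (gens g R T)) z := by
    intro z
    have : FiniteDimensional (IntermediateField.adjoin ℂ (gens g R T)) M :=
      FiniteDimensional.of_finrank_pos hodd'.pos
    exact Algebra.IsAlgebraic.isAlgebraic z
  have hY : AlgebraicIndependent ℂ (Sum.elim y (algebraMap (Kt (q + 2)) M ∘
      Pool.Agent.X328.FD.tf (q + 2))) :=
    AlgebraicIndependent.sumElim_comp Pool.Agent.X328.FD.tf_indep hy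
  have hcY : ((p + 2 + m + (q + 2) : ℕ) : Cardinal) ≤ Cardinal.mk (ι' ⊕ Fin (q + 2)) := by
    rw [Cardinal.mk_sum, Cardinal.lift_id, Cardinal.lift_id, Cardinal.mk_fin, Nat.cast_add]
    exact add_le_add hc le_rfl
  have hga : ∀ a, g a ≠ 0 := gp_ne (R := R) hF hco hT hg0 hgF halg hY hcY
  have hgl := hga (Fin.last (p + 3))
  set x : Fin (NN p q m + 2) → M := bx g R T with hx
  have hx0 : x 0 ≠ 0 := by
    have h1 : x 0 = g (Fin.castSucc 0) := bx_ix 0
    rw [h1]
    exact hga _
  have hF' : (rename (rr p q m) F).IsHomogeneous 3 := rename_hom _ hF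
  have hxF : aeval x (rename (rr p q m) F) = 0 := by
    rw [hx, bx_aeval, hgF]
  have hxi : AlgebraicIndependent ℂ (yx x) := bx_indep hF hco hT hga hgF halg hY hcY
  have hcub := cub ℂ M (NN p q m) (rename (rr p q m) F) hF' (irr_rename hirr)
    (last_rename hF hco) x
  have hgen := hcub.2 hxF hx0 hxi
  have hdeg := (hcub.1 hgen).2.2
  have hoddx : Odd (finrank (Kc ℂ (yx x)) M) := by
    rw [hdeg]
    refine (by decide : Odd 3).mul ?_
    rw [hx, ← gens_bx (R := R) hT hgl]
    exact hodd'
  have htt : tt x = T := tt_bx hT hgl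
  -- the injection
  let v : Fin (p + 1) → Fin (q + 1) := fun i =>
    if i = Fin.last p then Fin.last q else ⟨i.val, by omega⟩
  have hv : Function.Injective v := by
    intro i j h
    by_cases h1 : i = Fin.last p <;> by_cases h2 : j = Fin.last p
    · rw [h1, h2]
    · have h3 : v i = Fin.last q := if_pos h1
      have h4 : v j = ⟨j.val, by omega⟩ := if_neg h2
      rw [h3, h4] at h
      have h5 := congrArg Fin.val h
      simp only [Fin.val_last] at h5
      have h6 : j.val ≠ p := fun h => h2 (Fin.ext h)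
      omega
    · have h3 : v j = Fin.last q := if_pos h2
      have h4 : v i = ⟨i.val, by omega⟩ := if_neg h1
      rw [h3, h4] at h
      have h5 := congrArg Fin.val h
      simp only [Fin.val_last] at h5
      have h6 : i.val ≠ p := fun h => h1 (Fin.ext h)
      omega
    · have h3 : v i = ⟨i.val, by omega⟩ := if_neg h1
      have h4 : v j = ⟨j.val, by omega⟩ := if_neg h2
      rw [h3, h4] at h
      exact Fin.ext (congrArg (fun z : Fin (q + 1) => z.val) h)
  have hvl : v (Fin.last p) = Fin.last q := if_pos rfl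
  -- algebraic elements
  have htop' : (IsScalarTower.toAlgHom ℂ (Kt (q + 2)) M).fieldRange =
      IntermediateField.adjoin ℂ (Set.range fun j : Fin (q + 2) => tt x j.succ) := by
    rw [htop, htt]
    apply le_antisymm
    · rw [IntermediateField.adjoin_le_iff]
      rintro _ ⟨j, rfl⟩
      refine Fin.cases ?_ (fun j => ?_) j
      · rw [hT]
        exact one_mem _
      · exact IntermediateField.subset_adjoin _ _ ⟨j, rfl⟩
    · rw [IntermediateField.adjoin_le_iff]
      rintro _ ⟨j, rfl⟩
      exact IntermediateField.subset_adjoin _ _ ⟨_, rfl⟩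
  have halg' : ∀ z : M, IsAlgebraic (Kt (q + 2)) z → IsAlgebraic
      (IntermediateField.adjoin ℂ (Set.range fun j : Fin (q + 2) => tt x j.succ)) z := by
    intro z hz
    rw [← htop']
    let f : Kt (q + 2) →+* (IsScalarTower.toAlgHom ℂ (Kt (q + 2)) M).fieldRange :=
      (algebraMap (Kt (q + 2)) M).codRestrict (IsScalarTower.toAlgHom ℂ (Kt (q + 2)) M).fieldRange
        fun a => ⟨a, rfl⟩
    obtain ⟨P, hP, hPz⟩ := hz
    refine ⟨P.map f, ?_, ?_⟩
    · rwa [Ne, Polynomial.map_eq_zero]
    · rw [Polynomial.aeval_def, Polynomial.eval₂_map]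
      exact hPz
  refine over_C hv hvl hF hind x hxF hx0 hxi hoddx g l (fun i => (bx_ix i).symm)
    (by rw [hx, bx_iz, hT, one_mul]) (fun i j => dep_of_alg (halg' _ ?_)) ?_
  · rw [div_eq_mul_inv]
    exact (hl i).mul (hl j).inv
  refine Relation.ReflTransGen.mono (fun a b' h => ?_) _ _ hch
  obtain ⟨ha, hb', D, Cc, hD, hC, e1, e2⟩ := h
  refine ⟨ha, hb', D, Cc, hD, ?_, e1, e2⟩
  have _ : IsScalarTower ℂ (Kt (q + 2)) (Polynomial M) := IsScalarTower.of_algebraMap_eq fun _ =>
    rfl
  rw [← hC, aeval_fibre, aeval_rename, htt]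
  congr 2
  funext a
  refine Fin.addCases (fun i => ?_) (fun j => ?_) a
  · rw [Function.comp_apply, rr, Fin.append_left, Fin.append_left, pt_ix]
  · rw [Function.comp_apply, rr, Fin.append_right, Fin.append_right, pt_iz, mul_comm]
    rfl

end

end Pool.Agent.H900.LF
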