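import Pool.Agent.H900.LF.Mn

/-! # Parametrizations join the generic point to a rational point -/

set_option autoImplicit false
set_option linter.unusedSectionVars false

namespace Pool.Agent.H900.LF

open MvPolynomial Module

noncomputable section

/-- the variables are independent in the field of rational functions -/
theorem vars_indep (k : Type) [Field k] (N : ℕ) : AlgebraicIndependent k
    (fun l : Fin N => algebraMap (MvPolynomial (Fin N) k) (FractionRing (MvPolynomial (Fin N) k))
      (X l)) :=
  (algebraicIndependent_X (Fin N) k).map'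
    (f := IsScalarTower.toAlgHom k (MvPolynomial (Fin N) k) (FractionRing (MvPolynomial (Fin N) k)))
    (IsFractionRing.injective (MvPolynomial (Fin N) k) (FractionRing (MvPolynomial (Fin N) k)))

theorem param_joined {k : Type} [Field k] [Infinite k] {r N d : ℕ} {f : MvPolynomial (Fin r) k}
    (hf : f.IsHomogeneous d) {U : Type} [Field U] [Algebra (MvPolynomial (Fin N) k) U]
    [Algebra k U] [IsScalarTower k (MvPolynomial (Fin N) k) U]
    [IsFractionRing (MvPolynomial (Fin N) k) U] (g : Fin r → U) (hg0 : g ≠ 0)
    (hg : aeval g f = 0) : ∃ p : Fin r → k, p ≠ 0 ∧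
      Joined f g (fun i => algebraMap k U (p i)) := by
  classical
  obtain ⟨b, hb⟩ := IsLocalization.exist_integer_multiples_of_finite
    (nonZeroDivisors (MvPolynomial (Fin N) k)) g
  choose G hG using hb
  have hb0 : (b : MvPolynomial (Fin N) k) ≠ 0 := nonZeroDivisors.coe_ne_zero b
  set β : U := algebraMap (MvPolynomial (Fin N) k) U b with hβ
  have hβ0 : β ≠ 0 := by
    rw [hβ, Ne, IsFractionRing.to_map_eq_zero_iff]
    exact hb0
  have hG' : ∀ i, algebraMap (MvPolynomial (Fin N) k) U (G i) = β * g i := by
    intro i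
    rw [hG, Algebra.smul_def]
  obtain ⟨i1, hi1⟩ := Function.ne_iff.1 hg0
  rw [Pi.zero_apply] at hi1
  have hGi : G i1 ≠ 0 := by
    intro h
    have h1 := hG' i1
    rw [h, map_zero] at h1
    exact mul_ne_zero hβ0 hi1 h1.symm
  obtain ⟨w0, hw0⟩ : ∃ w0 : Fin N → k, eval w0 (G i1) ≠ 0 := by
    by_contra hcon
    push Not at hcon
    exact hGi (MvPolynomial.funext fun w => by rw [hcon, map_zero])
  have hGf : aeval G f = 0 := by
    apply IsFractionRing.injective (MvPolynomial (Fin N) k) U
    have h1 := comp_aeval_apply G (IsScalarTower.toAlgHom k (MvPolynomial (Fin N) k) U) f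
    have h2 : (fun i => (IsScalarTower.toAlgHom k (MvPolynomial (Fin N) k) U) (G i)) =
        fun i => β * g i := funext hG'
    rw [h2, hom_smul hf, hg, mul_zero] at h1
    rw [map_zero]
    exact h1
  have hUinf : Infinite U := Infinite.of_injective _ (algebraMap k U).injective
  set Gm : Fin r → MvPolynomial (Fin N) U := fun i => map (algebraMap k U) (G i) with hGm
  set D : ℕ := Finset.univ.sup fun i => (Gm i).totalDegree with hD
  have hDi : ∀ i, (Gm i).totalDegree ≤ D := fun i =>
    Finset.le_sup (f := fun i => (Gm i).totalDegree) (Finset.mem_univ i)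
  set v : Fin N → U := fun l => algebraMap (MvPolynomial (Fin N) k) U (X l) with hv
  set t : Fin N → U := fun l => algebraMap k U (w0 l) with ht
  have hform : aeval Gm (map (algebraMap k U) f) = 0 := by
    have h1 : aeval Gm (map (algebraMap k U) f) = map (algebraMap k U) (aeval G f) := by
      rw [aeval_map_algebraMap]
      have h2 := comp_aeval_apply G (mapAlgHom (Algebra.ofId k U) :
        MvPolynomial (Fin N) k →ₐ[k] MvPolynomial (Fin N) U) f
      exact h2.symm
    rw [h1, hGf, map_zero]
  have hevv : ∀ i, eval v (Gm i) = β * g i := by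
    intro i
    rw [← hG', hGm, eval_map, ← aeval_def]
    have h1 := comp_aeval_apply (X : Fin N → MvPolynomial (Fin N) k)
      (IsScalarTower.toAlgHom k (MvPolynomial (Fin N) k) U) (G i)
    rw [aeval_X_left_apply] at h1
    exact h1.symm
  have hevt : ∀ i, eval t (Gm i) = algebraMap k U (eval w0 (G i)) := by
    intro i
    rw [hGm, eval_map]
    have h1 := eval₂_comp_left (algebraMap k U) (RingHom.id k) w0 (G i)
    rw [RingHom.comp_id] at h1
    exact h1.symm
  refine ⟨fun i => eval w0 (G i), fun h => hw0 (congrFun h i1), hg0, fun h => ?_, D,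
    fun i => Pool.Agent.X328.FD.curve D v t (Gm i),
    fun i => (Pool.Agent.X328.FD.curve_top v t (hDi i)).1, ?_, ⟨β, hβ0, fun i => ?_⟩,
    1, one_ne_zero, fun i => ?_⟩
  · have h1 := congrFun h i1
    rw [Pi.zero_apply, map_eq_zero] at h1
    exact hw0 h1
  · have h1 := Pool.Agent.X328.FD.curve_form v t hDi (hf.map (algebraMap k U)) hform
    rw [aeval_map_algebraMap] at h1
    exact h1
  · rw [Pool.Agent.X328.FD.curve_zero, hevv]
  · rw [(Pool.Agent.X328.FD.curve_top v t (hDi i)).2, hevt, one_mul]

theorem fibre_hom {n s : ℕ} {F : MvPolynomial (Fin (n + 1 + (s + 1))) ℂ}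
    (hF : F.IsHomogeneous 3) : (fibre (n := n) (s := s) F).IsHomogeneous 3 := by
  unfold fibre
  have h := hF.aeval (Fin.append (fun i : Fin (n + 1) => X i.castSucc)
    (fun j : Fin (s + 1) => C (tj s j) * X (Fin.last (n + 1))) :
      Fin (n + 1 + (s + 1)) → MvPolynomial (Fin (n + 2)) (Kt s)) (n := 1) (fun a => ?_)
  · simpa using h
  · refine Fin.addCases (fun i => ?_) (fun j => ?_) a
    · rw [Fin.append_left]
      exact isHomogeneous_X _ _
    · rw [Fin.append_right]
      simpa using (isHomogeneous_C _ (tj s j)).mul (isHomogeneous_X (Kt s) (Fin.last (n + 1)))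

end

end Pool.Agent.H900.LF
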