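import Pool.Agent.H900.LF.Fs
import Pool.Graph.R_pool_sql_team_seeded_64922ed1.X328.FD.Final

/-! # Rational curves on the fibre and the reduction at a place -/

set_option autoImplicit false
set_option linter.unusedSectionVars false

namespace Pool.Agent.H900.LF

open MvPolynomial FF Pool.Agent.Helper93K9.PAR

noncomputable section

variable {p q m : ℕ}

/-- the point of the fibre over `t` with coordinates `u` -/
def pt {A : Type} [CommRing A] (m : ℕ) (t : Fin (q + 3) → A) (u : Fin (p + 3 + 1) → A) :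
    Fin (NN p q m + 2) → A :=
  (Fin.append (Fin.append (fun i : Fin (p + 3) => u i.castSucc) (fun _ : Fin m => 0))
    (fun j => u (Fin.last (p + 3)) * t j) : Fin (p + 3 + m + (q + 3)) → A)

section

variable {A : Type} [CommRing A] (t : Fin (q + 3) → A) (u : Fin (p + 3 + 1) → A)

theorem pt_ix (i : Fin (p + 3)) : pt m t u (ix p q m i) = u i.castSucc := by
  unfold pt ix
  rw [Fin.append_left, Fin.append_left]

theorem pt_ir (l : Fin m) : pt m t u (ir p q m l) = 0 := by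
  unfold pt ir
  rw [Fin.append_left, Fin.append_right]

theorem pt_iz (j : Fin (q + 3)) : pt m t u (iz p q m j) = u (Fin.last (p + 3)) * t j := by
  unfold pt iz
  rw [Fin.append_right]

theorem pt_map {B : Type} [CommRing B] (φ : A →+* B) (a : Fin (NN p q m + 2)) :
    φ (pt m t u a) = pt m (fun j => φ (t j)) (fun i => φ (u i)) a := by
  rcases cases_idx a with ⟨i, rfl⟩ | ⟨l, rfl⟩ | ⟨j, rfl⟩
  · rw [pt_ix, pt_ix]
  · rw [pt_ir, pt_ir, map_zero]
  · rw [pt_iz, pt_iz, map_mul]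

theorem pt_smul (a : A) (b : Fin (NN p q m + 2)) :
    pt m t (fun i => a * u i) b = a * pt m t u b := by
  rcases cases_idx b with ⟨i, rfl⟩ | ⟨l, rfl⟩ | ⟨j, rfl⟩
  · rw [pt_ix, pt_ix]
  · rw [pt_ir, pt_ir, mul_zero]
  · rw [pt_iz, pt_iz]
    ring

theorem aeval_pt {k : Type} [CommRing k] [Algebra k A] (v : Fin (p + 1) → Fin (q + 1)) :
    aeval (pt m t u) (Fsp m v : MvPolynomial (Fin (NN p q m + 2)) k) =
      u (Fin.last (p + 3)) * ∑ i, cq v t i * u i ^ 2 := by
  rw [aeval_Fsp, Fin.sum_univ_castSucc (fun i => cq v t i * u i ^ 2)]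
  simp only [pt_ix, pt_iz, cq_castSucc, cq_last]
  rw [mul_add, Finset.mul_sum]
  congr 1
  · refine Finset.sum_congr rfl fun i _ => ?_
    ring
  · ring

end

section place

variable {Ω K E : Type} [Field Ω] [Field K] [Field E] [Algebra Ω K] [Algebra K E] [Algebra Ω E]
  [IsScalarTower Ω K E]

theorem reg_ev (w : Place Ω E) {σ : Type} {g : MvPolynomial σ E} (hg : ∀ α, w.Reg (g.coeff α))
    {y : σ → E} (hy : ∀ i, w.Reg (y i)) : w.Reg (aeval y g) := by
  rw [aeval_def, eval₂_eq]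
  exact (show _ ∈ w.O from sum_mem fun α _ => mul_mem (show _ ∈ w.O from hg α)
    (prod_mem fun i _ => pow_mem (show _ ∈ w.O from hy i) _))

/-- the vector `u` has a normalization at which `g` reduces to zero -/
def RZ (w : Place Ω E) {r : ℕ} (g : MvPolynomial (Fin r) E) (u : Fin r → E) : Prop :=
  ∃ i0, u i0 ≠ 0 ∧ (∀ i, w.Reg (u i / u i0)) ∧ w.red (aeval (fun i => u i / u i0) g) = 0

theorem exists_norm (w : Place Ω E) {r : ℕ} {u : Fin r → E} (hu : u ≠ 0) :
    ∃ i0, u i0 ≠ 0 ∧ ∀ i, w.Reg (u i / u i0) := by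
  classical
  obtain ⟨i1, hi1⟩ := Function.ne_iff.1 hu
  rw [Pi.zero_apply] at hi1
  obtain ⟨i0, h0, hmin⟩ := Finset.exists_min_image (Finset.univ.filter fun i => u i ≠ 0)
    (fun i => w.ord (u i)) ⟨i1, Finset.mem_filter.2 ⟨Finset.mem_univ _, hi1⟩⟩
  rw [Finset.mem_filter] at h0
  refine ⟨i0, h0.2, fun i => ?_⟩
  by_cases hi : u i = 0
  · rw [hi, zero_div]
    exact w.reg_zero
  · right
    rw [w.ord_div hi h0.2]
    have := hmin i (Finset.mem_filter.2 ⟨Finset.mem_univ _, hi⟩)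
    omega

theorem rz_all (w : Place Ω E) {r d : ℕ} {g : MvPolynomial (Fin r) E} (hg : g.IsHomogeneous d)
    (hr : ∀ α, w.Reg (g.coeff α)) {u : Fin r → E} (h : RZ w g u) (i1 : Fin r)
    (hr1 : ∀ i, w.Reg (u i / u i1)) : w.red (aeval (fun i => u i / u i1) g) = 0 := by
  obtain ⟨i0, h0, hr0, hz⟩ := h
  have e1 : (fun i => u i / u i1) = fun i => (u i / u i0) / (u i1 / u i0) := by
    funext i
    rw [div_div_div_cancel_right₀ h0]
  rw [e1, Pool.Agent.X328.FD.aeval_div _ _ hg, div_eq_mul_inv, ← inv_pow, inv_div]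
  have hO : w.Reg ((u i0 / u i1) ^ d) :=
    (show _ ∈ w.O from pow_mem (show _ ∈ w.O from hr1 i0) d)
  rw [w.red_mul (reg_ev w hr hr0) hO, hz, zero_mul]

variable (w : Place Ω E) (v : Fin (p + 1) → Fin (q + 1)) (t : Fin (q + 3) → E)

/-- the linear form -/
def g1 (p : ℕ) (E : Type) [Field E] : MvPolynomial (Fin (p + 3 + 1)) E := X (Fin.last (p + 3))

/-- the quadratic form -/
def g2 : MvPolynomial (Fin (p + 3 + 1)) E := ∑ i, C (cq v t i) * X i ^ 2

/-- the cubic form -/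
def f3 (G : MvPolynomial (Fin (NN p q m + 2)) Ω) : MvPolynomial (Fin (p + 3 + 1)) E :=
  aeval (pt m (fun j => C (t j)) X) G

theorem g1_hom : (g1 p E).IsHomogeneous 1 := isHomogeneous_X E _

theorem g2_hom : (g2 v t).IsHomogeneous 2 := Pool.Agent.X328.FD.sum_form _

theorem f3_hom {G : MvPolynomial (Fin (NN p q m + 2)) Ω} (hG : G.IsHomogeneous 3) :
    (f3 (p := p) t G).IsHomogeneous 3 := by
  unfold f3
  have h := hG.aeval (pt m (fun j => C (t j)) (X : _ → MvPolynomial (Fin (p + 3 + 1)) E))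
    (n := 1) (fun a => ?_)
  · simpa using h
  · rcases cases_idx a with ⟨i, rfl⟩ | ⟨l, rfl⟩ | ⟨j, rfl⟩
    · rw [pt_ix]
      exact isHomogeneous_X E _
    · rw [pt_ir]
      exact isHomogeneous_zero _ _ _
    · rw [pt_iz]
      simpa using (isHomogeneous_X E (Fin.last (p + 3))).mul (isHomogeneous_C _ (t j))

theorem g1_reg (α : Fin (p + 3 + 1) →₀ ℕ) : w.Reg ((g1 p E).coeff α) := by
  classical
  rw [g1, coeff_X]
  split_ifs
  · exact w.reg_one
  · exact w.reg_zero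

theorem cq_reg {t : Fin (q + 3) → E} (ht : ∀ j, w.Reg (t j)) (i : Fin (p + 3 + 1)) :
    w.Reg (cq v t i) := by
  have hO : ∀ {x : E}, w.Reg x ↔ x ∈ w.O := Iff.rfl
  refine Fin.lastCases ?_ (fun i => ?_) i
  · rw [cq_last]
    exact sub_mem (mul_mem (mul_mem (hO.1 (ht 0)) (hO.1 (ht 1))) (hO.1 (ht _)))
      (pow_mem (hO.1 (ht _)) 3)
  · rw [cq_castSucc]
    exact ht _

theorem red_sum {r : ℕ} (x : Fin r → E) (hx : ∀ i, w.Reg (x i)) :
    w.Reg (∑ i, x i) ∧ w.red (∑ i, x i) = ∑ i, w.red (x i) := by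
  have := LwL.red_aeval w x (∑ i, X i : MvPolynomial (Fin r) Ω) hx
  simpa only [map_sum, aeval_X] using this

theorem red_cq {t : Fin (q + 3) → E} (ht : ∀ j, w.Reg (t j)) (i : Fin (p + 3 + 1)) :
    w.red (cq v t i) = cq v (fun j => w.red (t j)) i := by
  refine Fin.lastCases ?_ (fun i => ?_) i
  · rw [cq_last, cq_last]
    have hO : ∀ {x : E}, w.Reg x ↔ x ∈ w.O := Iff.rfl
    have h1 : w.Reg (t 0 * t 1) := w.reg_mul (ht 0) (ht 1)
    have h2 : w.Reg (t 0 * t 1 * t (LL q)) := w.reg_mul h1 (ht _)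
    have h3 : w.Reg (t (LL q) ^ 3) := hO.2 (pow_mem (hO.1 (ht _)) 3)
    rw [w.red_sub h2 h3, w.red_mul h1 (ht _), w.red_mul (ht 0) (ht 1), w.red_pow (ht _)]
  · rw [cq_castSucc, cq_castSucc]

theorem g2_reg {t : Fin (q + 3) → E} (ht : ∀ j, w.Reg (t j)) (α : Fin (p + 3 + 1) →₀ ℕ) :
    w.Reg ((g2 v t).coeff α) := by
  classical
  have hO : ∀ {x : E}, w.Reg x ↔ x ∈ w.O := Iff.rfl
  rw [g2, coeff_sum]
  refine hO.2 (sum_mem fun i _ => ?_)
  rw [coeff_C_mul, coeff_X_pow]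
  split_ifs
  · rw [mul_one]
    exact hO.1 (cq_reg w v ht i)
  · rw [mul_zero]
    exact zero_mem _

theorem f3_reg {t : Fin (q + 3) → E} (ht : ∀ j, w.Reg (t j))
    (G : MvPolynomial (Fin (NN p q m + 2)) Ω) (α : Fin (p + 3 + 1) →₀ ℕ) :
    w.Reg ((f3 (p := p) t G).coeff α) := by
  let t' : Fin (q + 3) → LwL.OA w := fun j => ⟨t j, ht j⟩
  let g : MvPolynomial (Fin (p + 3 + 1)) (LwL.OA w) := aeval (pt m (fun j => C (t' j)) X) G
  have h1 : f3 (p := p) t G = map (LwL.OA w).val.toRingHom g := by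
    have h2 : ((mapAlgHom (LwL.OA w).val : MvPolynomial (Fin (p + 3 + 1)) (LwL.OA w) →ₐ[Ω]
      MvPolynomial (Fin (p + 3 + 1)) E)) g = aeval (fun a => (mapAlgHom (LwL.OA w).val :
        MvPolynomial (Fin (p + 3 + 1)) (LwL.OA w) →ₐ[Ω] MvPolynomial (Fin (p + 3 + 1)) E)
          (pt m (fun j => C (t' j)) X a)) G := comp_aeval_apply _ _ _
    have h3 : map (LwL.OA w).val.toRingHom g = ((mapAlgHom (LwL.OA w).val :
      MvPolynomial (Fin (p + 3 + 1)) (LwL.OA w) →ₐ[Ω]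
      MvPolynomial (Fin (p + 3 + 1)) E)) g := rfl
    rw [h3, h2, f3]
    congr 2
    funext a
    have h4 := pt_map (m := m) (fun j => C (t' j)) (X : _ → MvPolynomial (Fin (p + 3 + 1))
      (LwL.OA w)) (mapAlgHom (LwL.OA w).val : MvPolynomial (Fin (p + 3 + 1)) (LwL.OA w) →ₐ[Ω]
        MvPolynomial (Fin (p + 3 + 1)) E).toRingHom a
    refine Eq.trans ?_ h4.symm
    congr 1
    · funext j
      show _ = map _ (C (t' j))
      rw [map_C]
      rfl
    · funext i
      show _ = map _ (X i)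
      rw [map_X]
  rw [h1, coeff_map]
  exact (g.coeff α).2

theorem aeval_g1 (y : Fin (p + 3 + 1) → E) : aeval y (g1 p E) = y (Fin.last (p + 3)) := by
  rw [g1, aeval_X]

theorem aeval_g2 {A : Type} [CommRing A] [Algebra E A] (y : Fin (p + 3 + 1) → A) :
    aeval y (g2 v t) = ∑ i, algebraMap E A (cq v t i) * y i ^ 2 := by
  rw [g2, map_sum]
  simp only [map_mul, aeval_C, map_pow, aeval_X]

theorem aeval_f3 {A : Type} [CommRing A] [Algebra E A] [Algebra Ω A] [IsScalarTower Ω E A]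
    (y : Fin (p + 3 + 1) → A) (G : MvPolynomial (Fin (NN p q m + 2)) Ω) :
    aeval y (f3 t G) = aeval (pt m (fun j => algebraMap E A (t j)) y) G := by
  have h1 := comp_aeval_apply (pt m (fun j => C (t j))
    (X : _ → MvPolynomial (Fin (p + 3 + 1)) E))
    ((aeval y : MvPolynomial (Fin (p + 3 + 1)) E →ₐ[E] A).restrictScalars Ω) G
  have h2 : aeval y (f3 t G) = ((aeval y :
    MvPolynomial (Fin (p + 3 + 1)) E →ₐ[E] A).restrictScalars Ω)
      (aeval (pt m (fun j => C (t j)) X) G) := rfl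
  rw [h2, h1]
  congr 2
  funext a
  have h3 := pt_map (m := m) (fun j => C (t j)) (X : _ → MvPolynomial (Fin (p + 3 + 1)) E)
    ((aeval y : MvPolynomial (Fin (p + 3 + 1)) E →ₐ[E] A) : _ →+* A) a
  refine Eq.trans h3 ?_
  congr 1
  · funext j
    exact aeval_C _ _
  · funext i
    exact aeval_X _ _

end place

end

end Pool.Agent.H900.LF
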