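import Pool.Agent.H900.LF.Lk
import Pool.Graph.R_seed8.R845.E3.Spr

/-! # The residue field at a good place -/

set_option autoImplicit false
set_option linter.unusedSectionVars false

namespace Pool.Agent.H900.LF

open MvPolynomial FF Module Pool.Agent.Helper93K9.PAR

noncomputable section

variable {p q m : ℕ}

section

variable {Ω κ : Type} [Field Ω] [CharZero Ω] [Field κ] [Algebra Ω κ]
  {v : Fin (p + 1) → Fin (q + 1)} {x : Fin (NN p q m + 2) → κ}

/-- a form of degree less than three does not vanish at a generic point -/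
theorem gen_ne (hg : Gen (Fsp m v : MvPolynomial (Fin (NN p q m + 2)) Ω) x) {d : ℕ} (hd : d < 3)
    {H : MvPolynomial (Fin (NN p q m + 2)) Ω} (hH : H.IsHomogeneous d) (h0 : H ≠ 0) :
    aeval x H ≠ 0 := by
  intro h
  obtain ⟨A, hA⟩ := hg.2 d H hH h
  have hF := Fsp_hom (k := Ω) (m := m) v
  have hF0 : (Fsp m v : MvPolynomial (Fin (NN p q m + 2)) Ω) ≠ 0 := (Fsp_irr v).ne_zero
  have hA0 : A ≠ 0 := by
    rintro rfl
    rw [mul_zero] at hA
    exact h0 hA
  have h1 := congrArg totalDegree hA
  rw [hH.totalDegree h0, totalDegree_mul_of_isDomain hF0 hA0, hF.totalDegree hF0] at h1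
  omega

theorem z0_ne (hg : Gen (Fsp m v : MvPolynomial (Fin (NN p q m + 2)) Ω) x)
    (a : Fin (NN p q m + 2)) : x a ≠ 0 := by
  have h1 := gen_ne hg (by norm_num) (isHomogeneous_X Ω a) (X_ne_zero a)
  rwa [aeval_X] at h1

theorem den_ne (hg : Gen (Fsp m v : MvPolynomial (Fin (NN p q m + 2)) Ω) x) :
    x (ix p q m 1) ^ 2 + x (iz p q m 0) * x (iz p q m (LL q)) ≠ 0 := by
  classical
  have hX : ∀ a : Fin (NN p q m + 2), (X a : MvPolynomial _ Ω).IsHomogeneous 1 :=
    fun a => isHomogeneous_X Ω a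
  have h1 := gen_ne hg (d := 2) (by norm_num)
    (H := X (ix p q m 1) ^ 2 + X (iz p q m 0) * X (iz p q m (LL q)))
    (((hX _).pow 2).add ((hX _).mul (hX _))) ?_
  · simpa only [map_add, map_mul, map_pow, aeval_X] using h1
  · intro h
    have h2 := congrArg (eval (fun a => if a = ix p q m 1 then (1 : Ω) else 0)) h
    rw [map_add, map_mul, map_pow, eval_X, eval_X, eval_X, if_pos rfl,
      if_neg (ix_ne_iz 1 0).symm, map_zero] at h2
    norm_num at h2

/-- the parameters -/
def bb (x : Fin (NN p q m + 2) → κ) : Sg p q m → κ :=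
  Sum.elim (fun j => x (iz p q m j.succ.succ) / x (iz p q m 0))
    (Sum.elim (fun i => x (ix p q m i) / x (iz p q m 0))
      fun l => x (ir p q m l) / x (iz p q m 0))

/-- the coordinates of the base -/
def tt (x : Fin (NN p q m + 2) → κ) : Fin (q + 3) → κ :=
  fun j => x (iz p q m j) / x (iz p q m 0)

theorem rel (hg : Gen (Fsp m v : MvPolynomial (Fin (NN p q m + 2)) Ω) x) :
    tt x 1 * ((x (ix p q m 1) / x (iz p q m 0)) ^ 2 + tt x (LL q)) =
      -EE v (fun j => bb x (Sum.inl j)) (fun i => bb x (Sum.inr (Sum.inl i))) := by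
  have hz := z0_ne hg (iz p q m 0)
  have h1 := hg.1
  rw [aeval_Fsp, Fin.sum_univ_succ, Fin.sum_univ_succ] at h1
  have e0 : rho v 0 = 0 := rfl
  have e1 : rho v 1 = 1 := rfl
  have e2 : ∀ a : Fin (p + 1), rho v a.succ.succ = (v a).succ.succ := fun a => rfl
  have e3 : (Fin.succ 0 : Fin (p + 3)) = 1 := rfl
  simp only [e3] at h1
  simp only [e0, e1, e2] at h1
  unfold EE
  have e4 : (Fin.last q).succ.succ = LL q := rfl
  simp only [bb, Sum.elim_inl, Sum.elim_inr, tt, e4]
  have h2 : ∑ a : Fin (p + 1), x (iz p q m (v a).succ.succ) / x (iz p q m 0) *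
      (x (ix p q m a.succ.succ) / x (iz p q m 0)) ^ 2 =
      (∑ a : Fin (p + 1), x (iz p q m (v a).succ.succ) * x (ix p q m a.succ.succ) ^ 2) /
        x (iz p q m 0) ^ 3 := by
    rw [Finset.sum_div]
    refine Finset.sum_congr rfl fun a _ => ?_
    field_simp
  rw [h2]
  field_simp
  linear_combination h1

theorem den_ne' (hg : Gen (Fsp m v : MvPolynomial (Fin (NN p q m + 2)) Ω) x) :
    (x (ix p q m 1) / x (iz p q m 0)) ^ 2 + tt x (LL q) ≠ 0 := by
  have hz := z0_ne hg (iz p q m 0)
  intro h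
  apply den_ne hg
  unfold tt at h
  field_simp at h
  linear_combination h

theorem adjoin_bb (hg : Gen (Fsp m v : MvPolynomial (Fin (NN p q m + 2)) Ω) x) :
    IntermediateField.adjoin Ω (Set.range (bb x)) = rf Ω x := by
  have hz := z0_ne hg (iz p q m 0)
  apply le_antisymm
  · rw [IntermediateField.adjoin_le_iff]
    rintro _ ⟨(j | i | l), rfl⟩
    · exact IntermediateField.subset_adjoin _ _ ⟨_, _, rfl⟩
    · exact IntermediateField.subset_adjoin _ _ ⟨_, _, rfl⟩
    · exact IntermediateField.subset_adjoin _ _ ⟨_, _, rfl⟩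
  · set A := IntermediateField.adjoin Ω (Set.range (bb x)) with hA
    have hb : ∀ s, bb x s ∈ A := fun s => IntermediateField.subset_adjoin _ _ ⟨s, rfl⟩
    have h1 : tt x 1 ∈ A := by
      have h2 : tt x 1 = -EE v (fun j => bb x (Sum.inl j)) (fun i => bb x (Sum.inr (Sum.inl i))) /
          ((x (ix p q m 1) / x (iz p q m 0)) ^ 2 + tt x (LL q)) := by
        rw [eq_div_iff (den_ne' hg), rel hg]
      rw [h2]
      refine div_mem (neg_mem (sub_mem (add_mem (pow_mem (hb _) 2)
        (sum_mem fun a _ => mul_mem (hb _) (pow_mem (hb _) 2))) (pow_mem (hb _) 3))) ?_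
      exact add_mem (pow_mem (hb (Sum.inr (Sum.inl 1))) 2) (hb (Sum.inl (Fin.last q)))
    have h3 : ∀ a, x a / x (iz p q m 0) ∈ A := by
      intro a
      rcases cases_idx a with ⟨i, rfl⟩ | ⟨l, rfl⟩ | ⟨j, rfl⟩
      · exact hb (Sum.inr (Sum.inl i))
      · exact hb (Sum.inr (Sum.inr l))
      · refine Fin.cases ?_ (fun j => Fin.cases ?_ (fun j => ?_) j) j
        · rw [div_self hz]
          exact one_mem _
        · exact h1
        · exact hb (Sum.inl j)
    rw [rf, IntermediateField.adjoin_le_iff]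
    rintro _ ⟨i, j, rfl⟩
    have h4 : x i / x j = (x i / x (iz p q m 0)) / (x j / x (iz p q m 0)) := by
      rw [div_div_div_cancel_right₀ hz]
    rw [h4]
    exact div_mem (h3 i) (h3 j)

theorem yx_indep (hg : Gen (Fsp m v : MvPolynomial (Fin (NN p q m + 2)) Ω) x) :
    AlgebraicIndependent Ω (yx x) :=
  ((cub Ω κ (NN p q m) (Fsp m v) (Fsp_hom v) (Fsp_irr v) (Fsp_last v) x).1 hg).2.1

theorem alg_rf (hodd : Odd (finrank (rf Ω x) κ)) (z : κ) : IsAlgebraic (rf Ω x) z := by
  have : FiniteDimensional (rf Ω x) κ := FiniteDimensional.of_finrank_pos hodd.pos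
  exact Algebra.IsAlgebraic.isAlgebraic z

theorem bb_indep (hg : Gen (Fsp m v : MvPolynomial (Fin (NN p q m + 2)) Ω) x)
    (hodd : Odd (finrank (rf Ω x) κ)) : AlgebraicIndependent Ω (bb x) := by
  refine Pool.Agent.X328.FD.indep_count (y := yx x) (fun z => ?_) (yx_indep hg) ?_
  · rw [adjoin_bb hg]
    exact alg_rf hodd z
  · simp only [Cardinal.mk_sum, Cardinal.lift_id, Cardinal.mk_fin]
    push_cast
    apply le_of_eq
    ring

/-- **The second form is anisotropic over the residue field.** -/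
theorem ne_kappa (hv : Function.Injective v) (hl : v (Fin.last p) = Fin.last q)
    (hg : Gen (Fsp m v : MvPolynomial (Fin (NN p q m + 2)) Ω) x)
    (hodd : Odd (finrank (rf Ω x) κ)) (y : Fin (p + 3 + 1) → κ)
    (hy : y (Fin.last (p + 3)) = 0) (hs : ∑ i, cq v (tt x) i * y i ^ 2 = 0) : y = 0 := by
  classical
  have hz := z0_ne hg (iz p q m 0)
  have hb := bb_indep hg hodd
  set c : Fin (p + 3) → MvPolynomial (Sg p q m) Ω :=
    Fin.cons 1 (Fin.cons (-(EE v (fun j => X (Sum.inl j)) (fun i => X (Sum.inr (Sum.inl i)))) *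
        (X (Sum.inr (Sum.inl 1)) ^ 2 + X (Sum.inl (Fin.last q)))) fun a => X (Sum.inl (v a)))
    with hc
  set ψ : MvPolynomial (Sg p q m) Ω →ₐ[Ω] κ := aeval (bb x) with hψ
  set dn : κ := (x (ix p q m 1) / x (iz p q m 0)) ^ 2 + tt x (LL q) with hdn
  have hdn0 : dn ≠ 0 := den_ne' hg
  have hψE : ψ (EE v (fun j => X (Sum.inl j)) (fun i => X (Sum.inr (Sum.inl i)))) =
      EE v (fun j => bb x (Sum.inl j)) (fun i => bb x (Sum.inr (Sum.inl i))) := by
    unfold EE
    simp only [map_sub, map_add, map_sum, map_mul, map_pow, hψ, aeval_X]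
  have hψ1 : ψ (c 1) = tt x 1 * dn * dn := by
    have h1 : c 1 = -(EE v (fun j => X (Sum.inl j)) (fun i => X (Sum.inr (Sum.inl i)))) *
        (X (Sum.inr (Sum.inl 1)) ^ 2 + X (Sum.inl (Fin.last q))) := rfl
    rw [h1, map_mul, map_neg, hψE, ← rel hg, map_add, map_pow, hψ, aeval_X, aeval_X]
    rfl
  set y' : Fin (p + 3) → κ := fun i => if i = 1 then y i.castSucc / dn else y i.castSucc with hy'
  have hterm : ∀ i : Fin (p + 3), ψ (c i) * y' i ^ 2 = cq v (tt x) i.castSucc *
      y i.castSucc ^ 2 := by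
    intro i
    rw [cq_castSucc]
    refine Fin.cases ?_ (fun i => Fin.cases ?_ (fun i => ?_) i) i
    · have h0 : (0 : Fin (p + 3)) ≠ 1 := by simp
      have h1 : ψ (c 0) = 1 := map_one ψ
      have h2 : tt x (rho v 0) = 1 := div_self hz
      rw [h1, h2, hy']
      simp only [if_neg h0]
    · have h1 : (Fin.succ 0 : Fin (p + 3)) = 1 := rfl
      have h2 : rho v 1 = 1 := rfl
      rw [h1, hψ1, h2, hy']
      simp only [if_true]
      field_simp
    · have h0 : (i.succ.succ : Fin (p + 3)) ≠ 1 := by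
        intro h
        exact absurd (congrArg Fin.val h) (by simp)
      have h1 : ψ (c i.succ.succ) = bb x (Sum.inl (v i)) := aeval_X _ _
      have h2 : tt x (rho v i.succ.succ) = bb x (Sum.inl (v i)) := rfl
      rw [h1, h2, hy']
      simp only [if_neg h0]
  by_contra hne
  have hw : ∃ i, y' i ≠ 0 := by
    by_contra hcon
    push Not at hcon
    apply hne
    funext i
    refine Fin.lastCases hy (fun i => ?_) i
    have h1 := hcon i
    rw [hy'] at h1
    simp only at h1
    split_ifs at h1 with h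
    · exact (div_eq_zero_iff.1 h1).resolve_right hdn0
    · exact h1
  have hadj : IntermediateField.adjoin Ω (Set.range ψ) = rf Ω x := by
    rw [← adjoin_bb hg]
    apply le_antisymm
    · rw [IntermediateField.adjoin_le_iff]
      rintro _ ⟨P, rfl⟩
      rw [hψ, aeval_def, eval₂_eq]
      have hb : ∀ s, bb x s ∈ IntermediateField.adjoin Ω (Set.range (bb x)) :=
        fun s => IntermediateField.subset_adjoin _ _ ⟨s, rfl⟩
      exact sum_mem fun α _ => mul_mem
        ((IntermediateField.adjoin Ω (Set.range (bb x))).algebraMap_mem _)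
        (prod_mem fun i _ => pow_mem (hb i) _)
    · rw [IntermediateField.adjoin_le_iff]
      rintro _ ⟨i, rfl⟩
      have h1 : bb x i = ψ (X i) := (aeval_X _ _).symm
      rw [h1]
      exact IntermediateField.subset_adjoin _ _ ⟨X i, rfl⟩
  obtain ⟨r, ⟨i0, hi0⟩, hr⟩ := Pool.Agent.R845.E3.odd_descentK ψ (by rw [hadj]; exact hodd)
    (fun i j => if i = j then c i else 0) y' hw (by
      rw [Fin.sum_univ_castSucc, hy] at hs
      rw [← hs]
      have h1 : ∀ i : Fin (p + 3), ∑ j, ψ (if i = j then c i else 0) * y' i * y' j =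
          cq v (tt x) i.castSucc * y i.castSucc ^ 2 := by
        intro i
        rw [Finset.sum_eq_single i]
        · rw [if_pos rfl, ← hterm]
          ring
        · intro j _ hj
          rw [if_neg (Ne.symm hj), map_zero]
          ring
        · intro h
          exact absurd (Finset.mem_univ _) h
      rw [Finset.sum_congr rfl fun i _ => h1 i]
      ring)
  have h2 : (∑ i, c i * r i ^ 2) = 0 := by
    have h3 : ∑ i, ∑ j, (if i = j then c i else 0) * r i * r j = ∑ i, c i * r i ^ 2 := by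
      refine Finset.sum_congr rfl fun i _ => ?_
      rw [Finset.sum_eq_single i]
      · rw [if_pos rfl]
        ring
      · intro j _ hj
        rw [if_neg (Ne.symm hj)]
        ring
      · intro h
        exact absurd (Finset.mem_univ _) h
    rw [h3] at hr
    exact (algebraicIndependent_iff.1 hb) _ hr
  have h4 := an3 (k := Ω) (m := m) hv hl r (fun i hi => absurd (Set.mem_univ i) hi) h2
  rw [h4, Pi.zero_apply, map_zero] at hi0
  exact hi0 rfl

end

end

end Pool.Agent.H900.LF
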