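import Pool.Agent.H900.LF.An

/-! # The two anisotropic forms -/

set_option autoImplicit false
set_option linter.unusedSectionVars false

namespace Pool.Agent.H900.LF

open MvPolynomial

noncomputable section

variable {p q m : ℕ}

/-- the indices of the variables `z` which are the coefficients of the squares -/
def rho (v : Fin (p + 1) → Fin (q + 1)) : Fin (p + 3) → Fin (q + 3) :=
  Fin.cons 0 (Fin.cons 1 fun a => (v a).succ.succ)

/-- the last index -/
abbrev LL (q : ℕ) : Fin (q + 3) := Fin.last (q + 2)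

/-- the coefficients of the quadratic form -/
def cq {R : Type} [CommRing R] (v : Fin (p + 1) → Fin (q + 1)) (t : Fin (q + 3) → R) :
    Fin (p + 3 + 1) → R :=
  Fin.snoc (α := fun _ => R) (fun i => t (rho v i)) (t 0 * t 1 * t (LL q) - t (LL q) ^ 3)

theorem cq_castSucc {R : Type} [CommRing R] (v : Fin (p + 1) → Fin (q + 1)) (t : Fin (q + 3) → R)
    (i : Fin (p + 3)) : cq v t i.castSucc = t (rho v i) := by
  rw [cq, Fin.snoc_castSucc]

theorem cq_last {R : Type} [CommRing R] (v : Fin (p + 1) → Fin (q + 1)) (t : Fin (q + 3) → R) :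
    cq v t (Fin.last (p + 3)) = t 0 * t 1 * t (LL q) - t (LL q) ^ 3 := by
  rw [cq, Fin.snoc_last]

theorem rho_inj {v : Fin (p + 1) → Fin (q + 1)} (hv : Function.Injective v) :
    Function.Injective (rho v) := by
  intro i j
  refine Fin.cases ?_ (fun i => Fin.cases ?_ (fun i => ?_) i) i <;>
    refine Fin.cases ?_ (fun j => Fin.cases ?_ (fun j => ?_) j) j <;>
    simp only [rho, Fin.cons_zero, Fin.cons_succ]
  · intro _; trivial
  · intro h; exact absurd (congrArg Fin.val h) (by simp)
  · intro h; exact absurd (congrArg Fin.val h) (by simp)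
  · intro h; exact absurd (congrArg Fin.val h) (by simp)
  · intro _; trivial
  · intro h; exact absurd (congrArg Fin.val h) (by simp)
  · intro h; exact absurd (congrArg Fin.val h) (by simp)
  · intro h; exact absurd (congrArg Fin.val h) (by simp)
  · intro h
    rw [hv (Fin.succ_injective _ (Fin.succ_injective _ h))]

theorem rho_last {v : Fin (p + 1) → Fin (q + 1)} (hl : v (Fin.last p) = Fin.last q) :
    rho v (Fin.last (p + 2)) = LL q := by
  have h1 : Fin.last (p + 2) = (Fin.last p).succ.succ := rfl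
  rw [h1, rho, Fin.cons_succ, Fin.cons_succ, hl]
  rfl

/-- **The first form.** -/
theorem an1 {k : Type} [Field k] {v : Fin (p + 1) → Fin (q + 1)} (hv : Function.Injective v)
    (hl : v (Fin.last p) = Fin.last q) :
    An (cq v (Fin.cons 1 X : Fin (q + 3) → MvPolynomial (Fin (q + 2)) k)) Set.univ := by
  classical
  set t : Fin (q + 3) → MvPolynomial (Fin (q + 2)) k := Fin.cons 1 X with ht
  set L : Fin (q + 2) := Fin.last (q + 1) with hL
  have ht0 : t 0 = 1 := rfl
  have hts : ∀ j : Fin (q + 2), t j.succ = X j := fun j => rfl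
  have htL : t (LL q) = X L := rfl
  have ht1 : t 1 = X 0 := rfl
  have h0L : (0 : Fin (q + 2)) ≠ L := by
    intro h
    exact absurd (congrArg Fin.val h) (by simp [hL])
  set nn : Fin (p + 3 + 1) := (Fin.last (p + 2)).castSucc with hnn
  have hnl : nn ≠ Fin.last (p + 3) := Fin.castSucc_ne_last _
  set J : Set (Fin (p + 3 + 1)) := {nn, Fin.last (p + 3)} with hJ
  set c' : Fin (p + 3 + 1) → MvPolynomial (Fin (q + 2)) k := fun i =>
    if i = nn then 1 else if i = Fin.last (p + 3) then t 1 - X L ^ 2 else cq v t i with hc'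
  have hsubt : ∀ j : Fin (q + 3), j ≠ LL q → sub L 0 (t j) = t j := by
    intro j hj
    refine Fin.cases (motive := fun j => j ≠ LL q → sub L 0 (t j) = t j) ?_ (fun j => ?_) j hj
    · intro _
      rw [ht0, map_one]
    · intro hj
      rw [hts]
      refine sub_ne (fun h => hj ?_) 0
      rw [h]
      rfl
  refine an_step (sub L (0 : MvPolynomial (Fin (q + 2)) k)).toRingHom (X L) (X_ne_zero L)
    (sub_self L 0) (fun a ha => ?_) _ c' _ J (fun i => ?_) ?_ ?_
  · have h1 := sub_ker L 0 a ha
    rwa [sub_zero] at h1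
  · by_cases h1 : i = nn
    · have hiJ : i ∈ J := Or.inl h1
      rw [if_pos hiJ, hc']
      simp only [if_pos h1, mul_one]
      rw [h1, hnn, cq_castSucc, rho_last hl, htL]
    · by_cases h2 : i = Fin.last (p + 3)
      · have hiJ : i ∈ J := Or.inr h2
        rw [if_pos hiJ, hc']
        simp only [if_neg h1, if_pos h2]
        rw [h2, cq_last, ht0, htL]
        ring
      · have hiJ : i ∉ J := by
          rintro (h | h)
          exacts [h1 h, h2 h]
        rw [if_neg hiJ, hc']
        simp only [if_neg h1, if_neg h2]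
  · -- the part of order zero
    have hT : Set.univ \ J ⊆ insert (0 : Fin (p + 3 + 1))
        ((Finset.univ.filter fun i : Fin (p + 3 + 1) => i ≠ 0 ∧ i ≠ nn ∧ i ≠ Fin.last (p + 3) :
          Finset (Fin (p + 3 + 1))) : Set (Fin (p + 3 + 1))) := by
      rintro i ⟨-, hi⟩
      by_cases h0 : i = 0
      · exact Or.inl h0
      · right
        rw [Finset.mem_coe, Finset.mem_filter]
        exact ⟨Finset.mem_univ _, h0, fun h => hi (Or.inl h), fun h => hi (Or.inr h)⟩
    refine An.mono ?_ hT
    have h00 : (0 : Fin (p + 3 + 1)) ≠ nn := by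
      intro h
      exact absurd (congrArg Fin.val h) (by simp [hnn])
    have h0l : (0 : Fin (p + 3 + 1)) ≠ Fin.last (p + 3) := by
      intro h
      exact absurd (congrArg Fin.val h) (by simp)
    -- the index of the variable
    have hidx : ∀ i : Fin (p + 3 + 1), i ≠ 0 → i ≠ nn → i ≠ Fin.last (p + 3) →
        ∃ (i' : Fin (p + 3)) (j : Fin (q + 2)), i = i'.castSucc ∧ rho v i' = j.succ ∧
          j ≠ L := by
      intro i h1 h2 h3
      obtain ⟨i', rfl⟩ := Fin.exists_castSucc_eq.2 h3
      have h4 : i' ≠ 0 := fun h => h1 (by rw [h]; rfl)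
      have h5 : i' ≠ Fin.last (p + 2) := fun h => h2 (by rw [h])
      have h6 : rho v i' ≠ 0 := fun h => h4 (rho_inj hv (h.trans rfl))
      obtain ⟨j, hj⟩ := Fin.exists_succ_eq.2 h6
      refine ⟨i', j, rfl, hj.symm, fun h => h5 (rho_inj hv ?_)⟩
      rw [← hj, h, rho_last hl]
      rfl
    have hidx' : ∀ i : Fin (p + 3 + 1), ∃ j : Fin (q + 2), i ≠ 0 → i ≠ nn →
        i ≠ Fin.last (p + 3) → ∃ i' : Fin (p + 3), i = i'.castSucc ∧ rho v i' = j.succ ∧
          j ≠ L := by
      intro i
      by_cases h : i ≠ 0 ∧ i ≠ nn ∧ i ≠ Fin.last (p + 3)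
      · obtain ⟨i', j, h1, h2, h3⟩ := hidx i h.1 h.2.1 h.2.2
        exact ⟨j, fun _ _ _ => ⟨i', h1, h2, h3⟩⟩
      · exact ⟨0, fun h1 h2 h3 => absurd ⟨h1, h2, h3⟩ h⟩
    choose u hu using hidx'
    refine an_vars _ (0 : Fin (p + 3 + 1)) _ u ?_ ?_ ?_ ?_
    · intro i hi j hj hij
      rw [Finset.mem_coe, Finset.mem_filter] at hi hj
      obtain ⟨i', h1, h2, -⟩ := hu i hi.2.1 hi.2.2.1 hi.2.2.2
      obtain ⟨j', h3, h4, -⟩ := hu j hj.2.1 hj.2.2.1 hj.2.2.2
      rw [h1, h3, rho_inj hv (h2.trans ((congrArg Fin.succ hij).trans h4.symm))]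
    · have h1 : c' 0 = 1 := by
        rw [hc']
        simp only [if_neg h00, if_neg h0l]
        have h2 : (0 : Fin (p + 3 + 1)) = (0 : Fin (p + 3)).castSucc := rfl
        rw [h2, cq_castSucc]
        rfl
      show sub L 0 (c' 0) = 1
      rw [h1, map_one]
    · rw [Finset.mem_filter]
      exact fun h => h.2.1 rfl
    · intro i hi
      rw [Finset.mem_filter] at hi
      obtain ⟨i', h1, h2, h3⟩ := hu i hi.2.1 hi.2.2.1 hi.2.2.2
      show sub L 0 (c' i) = X (u i)
      have h4 : c' i = X (u i) := by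
        rw [hc']
        simp only [if_neg hi.2.2.1, if_neg hi.2.2.2]
        rw [h1, cq_castSucc, h2, hts, ← h1]
      rw [h4, sub_ne h3]
  · -- the part of order one
    have hT : Set.univ ∩ J ⊆ insert nn
        ((({Fin.last (p + 3)} : Finset (Fin (p + 3 + 1)))) : Set (Fin (p + 3 + 1))) := by
      rintro i ⟨-, hi⟩
      rcases hi with hi | hi
      · exact Or.inl hi
      · right
        rw [Finset.coe_singleton]
        exact hi
    refine An.mono (an_vars _ nn _ (fun _ => 0) ?_ ?_ ?_ ?_) hT
    · rw [Finset.coe_singleton]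
      exact Set.injOn_singleton _ _
    · show sub L 0 (c' nn) = 1
      rw [hc']
      simp only [if_true, map_one]
    · rw [Finset.mem_singleton]
      exact hnl
    · intro i hi
      rw [Finset.mem_singleton] at hi
      show sub L 0 (c' i) = X 0
      rw [hc']
      simp only [if_neg (show ¬ i = nn by rw [hi]; exact hnl.symm), if_pos hi]
      rw [map_sub, map_pow, sub_self, ht1, sub_ne h0L]
      ring

/-- the index type of the parameters -/
abbrev Sg (p q m : ℕ) : Type := Fin (q + 1) ⊕ Fin (p + 3) ⊕ Fin m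

/-- the form `E` -/
def EE {R : Type} [CommRing R] (v : Fin (p + 1) → Fin (q + 1)) (τ : Fin (q + 1) → R)
    (Y : Fin (p + 3) → R) : R :=
  Y 0 ^ 2 + ∑ a, τ (v a) * Y a.succ.succ ^ 2 - τ (Fin.last q) ^ 3

/-- **The second form.** -/
theorem an3 {k : Type} [Field k] [CharZero k] {v : Fin (p + 1) → Fin (q + 1)}
    (hv : Function.Injective v) (hl : v (Fin.last p) = Fin.last q) :
    An (Fin.cons 1 (Fin.cons (-(EE v (fun j => X (Sum.inl j)) (fun i => X (Sum.inr (Sum.inl i)))) *
        (X (Sum.inr (Sum.inl 1)) ^ 2 + X (Sum.inl (Fin.last q)))) fun a => X (Sum.inl (v a))) :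
        Fin (p + 3) → MvPolynomial (Sg p q m) k) Set.univ := by
  classical
  set τ : Fin (q + 1) → MvPolynomial (Sg p q m) k := fun j => X (Sum.inl j) with hτ
  set Y : Fin (p + 3) → MvPolynomial (Sg p q m) k := fun i => X (Sum.inr (Sum.inl i)) with hY
  set nn : Fin (p + 3) := Fin.last (p + 2) with hnn
  set T : Finset (Sg p q m) := Finset.univ.filter fun σ => ∃ i : Fin (p + 3), i ≠ nn ∧
    σ = Sum.inr (Sum.inl i) with hT
  let e : MvPolynomial (Sg p q m) k →ₐ[k] MvPolynomial (Sg p q m) k :=
    aeval fun b => if b ∈ T then 0 else X b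
  have heY : ∀ i, i ≠ nn → e (Y i) = 0 := by
    intro i hi
    rw [hY]
    simp only
    rw [aeval_X, if_pos]
    rw [hT, Finset.mem_filter]
    exact ⟨Finset.mem_univ _, i, hi, rfl⟩
  have heYn : e (Y nn) = Y nn := by
    rw [hY]
    simp only
    rw [aeval_X, if_neg]
    rw [hT, Finset.mem_filter]
    rintro ⟨-, i, hi, h⟩
    exact hi (Sum.inl_injective (Sum.inr_injective h)).symm
  have heτ : ∀ j, e (τ j) = τ j := by
    intro j
    rw [hτ]
    simp only
    rw [aeval_X, if_neg]
    rw [hT, Finset.mem_filter]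
    rintro ⟨-, i, -, h⟩
    exact Sum.inl_ne_inr h
  have h0n : (0 : Fin (p + 3)) ≠ nn := by
    intro h
    exact absurd (congrArg Fin.val h) (by simp [hnn])
  have h1n : (1 : Fin (p + 3)) ≠ nn := by
    intro h
    exact absurd (congrArg Fin.val h) (by simp [hnn])
  refine an_zeros T _ _ e (fun a ha => ?_) (fun a ha => ?_) ?_
  · rw [aeval_X, if_pos ha]
  · rw [aeval_X, if_neg ha]
  set d1 : MvPolynomial (Sg p q m) k := -(τ (Fin.last q) ^ 2) * (Y nn + τ (Fin.last q)) with hd1
  have hC1 : e (-(EE v τ Y) * (Y 1 ^ 2 + τ (Fin.last q))) =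
      (Y nn - τ (Fin.last q)) * d1 := by
    have h1 : e (EE v τ Y) = τ (Fin.last q) * Y nn ^ 2 - τ (Fin.last q) ^ 3 := by
      rw [EE, map_sub, map_add, map_sum, map_pow, map_pow, heY 0 h0n, heτ,
        Finset.sum_eq_single (Fin.last p)]
      · rw [map_mul, map_pow, heτ, hl]
        have h2 : (Fin.last p).succ.succ = nn := rfl
        rw [h2, heYn]
        ring
      · intro a _ ha
        rw [map_mul, map_pow, heY]
        · ring
        · intro h
          exact ha (Fin.succ_injective _ (Fin.succ_injective _ h))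
      · intro h
        exact absurd (Finset.mem_univ _) h
    rw [map_mul, map_neg, h1, map_add, map_pow, heY 1 h1n, heτ, hd1]
    ring
  have hec : An (Fin.cons 1 (Fin.cons ((Y nn - τ (Fin.last q)) * d1) fun a => τ (v a)) :
      Fin (p + 3) → MvPolynomial (Sg p q m) k) Set.univ := by
    have hXY : (X (Sum.inr (Sum.inl nn)) : MvPolynomial (Sg p q m) k) ≠
        X (Sum.inl (Fin.last q)) := by
      intro h
      exact absurd (X_injective h) Sum.inr_ne_inl
    set ph := sub (Sum.inr (Sum.inl nn) : Sg p q m) (τ (Fin.last q)) with hph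
    have hphτ : ∀ j, ph (τ j) = τ j := fun j => sub_ne Sum.inl_ne_inr _
    have hphY : ph (Y nn) = τ (Fin.last q) := sub_self _ _
    refine an_step ph.toRingHom (Y nn - τ (Fin.last q))
      (sub_ne_zero.2 hXY) ?_ (fun a ha => sub_ker _ _ a ha) _
      (Fin.cons 1 (Fin.cons d1 fun a => τ (v a))) _ {1} (fun i => ?_) ?_ ?_
    · show ph (Y nn - τ (Fin.last q)) = 0
      rw [map_sub, hphτ, hphY, _root_.sub_self]
    · refine Fin.cases ?_ (fun i => Fin.cases ?_ (fun i => ?_) i) i
      · rw [if_neg (by intro h; exact absurd (congrArg Fin.val h) (by simp))]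
        rfl
      · rw [if_pos (by exact rfl)]
        rfl
      · rw [if_neg (by
          intro h
          have h1 : i.succ.succ = (1 : Fin (p + 3)) := h
          exact absurd (congrArg Fin.val h1) (by simp))]
        rfl
    · have hsub : Set.univ \ {1} ⊆ insert (0 : Fin (p + 3))
          ((Finset.univ.filter fun i : Fin (p + 3) => i ≠ 0 ∧ i ≠ 1 :
            Finset (Fin (p + 3))) : Set (Fin (p + 3))) := by
        rintro i ⟨-, hi⟩
        by_cases h0 : i = 0
        · exact Or.inl h0
        · right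
          rw [Finset.mem_coe, Finset.mem_filter]
          exact ⟨Finset.mem_univ _, h0, hi⟩
      refine An.mono (an_vars _ 0 _ (Fin.cons (Sum.inl 0) (Fin.cons (Sum.inl 0)
        fun a => Sum.inl (v a))) ?_ ?_ ?_ ?_) hsub
      · intro i hi j hj
        rw [Finset.mem_coe, Finset.mem_filter] at hi hj
        revert hi hj
        refine Fin.cases ?_ (fun i => Fin.cases ?_ (fun i => ?_) i) i
        · intro h; exact absurd rfl h.2.1
        · intro h; exact absurd rfl h.2.2
        refine Fin.cases ?_ (fun j => Fin.cases ?_ (fun j => ?_) j) j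
        · intro _ h; exact absurd rfl h.2.1
        · intro _ h; exact absurd rfl h.2.2
        intro _ _ h
        simp only [Fin.cons_succ] at h
        rw [hv (Sum.inl_injective h)]
      · show ph 1 = 1
        exact map_one _
      · rw [Finset.mem_filter]
        exact fun h => h.2.1 rfl
      · intro i hi
        rw [Finset.mem_filter] at hi
        revert hi
        refine Fin.cases ?_ (fun i => Fin.cases ?_ (fun i => ?_) i) i
        · intro h; exact absurd rfl h.2.1
        · intro h; exact absurd rfl h.2.2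
        intro _
        show ph (τ (v i)) = _
        rw [hphτ]
        rfl
    · refine An.mono (an_single _ 1 ?_) Set.inter_subset_right
      show ph d1 ≠ 0
      rw [hd1, map_mul, map_neg, map_pow, map_add, hphτ, hphY]
      have h1 : τ (Fin.last q) ≠ 0 := X_ne_zero _
      have h2 : τ (Fin.last q) + τ (Fin.last q) ≠ 0 := by
        rw [← two_mul]
        exact mul_ne_zero two_ne_zero h1
      exact mul_ne_zero (neg_ne_zero.2 (pow_ne_zero 2 h1)) h2
  refine hec.congr fun i _ => ?_
  refine Fin.cases ?_ (fun i => Fin.cases ?_ (fun i => ?_) i) i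
  · show (1 : MvPolynomial (Sg p q m) k) = e 1
    rw [map_one]
  · exact hC1.symm
  · exact (heτ _).symm

end

end Pool.Agent.H900.LF
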